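import Pool.Agent.Lib.MP_9d05bc_co.Levels

/-!
The morphism from ten letters to five letters, and the finite checks on it.
-/

namespace Pool.Agent.Lib.MP_9d05bc_co

/-- The words `3 q_x 3` in base eight, first letter least significant. -/
def code (x : ℕ) : ℕ :=
  [227, 1827, 27, 195, 1539, 786947, 25786876419, 3461055966936859139,
    498790731616168659523321025184170499,
    161866846802307553560267392473830518335648489860108893730692852384259].getD x 0

def lenF (x : ℕ) : ℕ := [2, 3, 1, 2, 3, 6, 11, 20, 39, 75].getD x 1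

def misF (x y : ℕ) : ℕ :=
  if x = y then 0 else if x + y = 1 then 2 else [1, 1, 1, 2, 3, 5, 10, 19, 39].getD (min x y) 0

def bN (x r : ℕ) : ℕ := (code x >>> (3 * r)) % 8 % 5

def blkF (x r : ℕ) : Fin 5 := ⟨bN x r, Nat.mod_lt _ (by norm_num)⟩

lemma blkF_eq (x r y s : ℕ) : blkF x r = blkF y s ↔ bN x r = bN y s := Fin.ext_iff

def allLt (f : ℕ → Bool) : ℕ → Bool
  | 0 => true
  | n + 1 => f n && allLt f n

lemma allLt_iff (f : ℕ → Bool) (n : ℕ) : allLt f n = true ↔ ∀ t, t < n → f t = true := by
  induction n with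
  | zero => simp [allLt]
  | succ n ih =>
    simp only [allLt, Bool.and_eq_true, ih]
    constructor
    · rintro ⟨h1, h2⟩ t ht
      rcases Nat.eq_or_lt_of_le (Nat.le_of_lt_succ ht) with rfl | h
      · exact h1
      · exact h2 t h
    · intro h
      exact ⟨h n (by omega), fun t ht => h t (by omega)⟩

def palB (x o m : ℕ) : Bool := allLt (fun t => bN x (o + t) == bN x (o + m - t)) (m + 1)

def occB (x o m y k : ℕ) : Bool := allLt (fun t => bN y (k + t) == bN x (o + t)) (m + 1)

def chk0 : Bool := allLt (fun x =>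
  (0 < lenF x : Bool) &&
  allLt (fun r => (decide (bN x r = 3 ↔ r = 0 ∨ r = lenF x)) && bN x (lenF x - r) == bN x r)
    (lenF x + 1) &&
  allLt (fun y => x == y || (bN x (misF x y) != bN y (misF x y) &&
    allLt (fun r => bN x r == bN y r) (misF x y) &&
    (misF x y ≤ lenF x : Bool) && (misF x y ≤ lenF y : Bool))) 10) 10

def chk1 : Bool := allLt (fun x => allLt (fun o => allLt (fun m =>
  !palB x o m || allLt (fun s => !occB x o m x (o + 1 + s) ||
    !allLt (fun k => !occB x o m x (o + 1 + k)) s || palB x o (1 + s + m)) (lenF x - o - m))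
  (lenF x + 1 - o)) (lenF x + 1)) 10

def chk2 : Bool := allLt (fun x => allLt (fun o => allLt (fun m =>
  !palB x o m || !allLt (fun k => !occB x o m x k) o ||
    allLt (fun y => allLt (fun o' => !occB x o m y o' || !allLt (fun k => !occB x o m y k) o' ||
      (o == o' && allLt (fun t => bN x t == bN y t) (o + m))) (lenF y + 1 - m)) 10)
  (lenF x + 1 - o)) (lenF x + 1)) 10

def chk3 : Bool := allLt (fun x => allLt (fun o => allLt (fun r =>
  !(o + 1 + (r + 1) + (679 * (r + 1) / 641 + 1) ≤ lenF x : Bool) ||
    !allLt (fun t => bN x (o + 1 + t) == bN x (o + 1 + (r + 1) + t)) (679 * (r + 1) / 641 + 1))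
  (lenF x)) (lenF x)) 10

lemma chk0_true : chk0 = true := by decide +kernel

lemma chk1_true : chk1 = true := by decide +kernel

lemma chk2_true : chk2 = true := by decide +kernel

lemma chk3_true : chk3 = true := by decide +kernel

end Pool.Agent.Lib.MP_9d05bc_co
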