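import Mathlib

/-!
Definitions of the problem file: factors, rich words and sequences, exponents,
critical exponent, asymptotic critical exponent, repetition threshold, the sequences `u_n`.
-/

open scoped ENNReal

namespace Pool.Agent.Lib.MP_9d05bc_co

variable {α : Type}

/-- The factor `u_j u_{j+1} ⋯ u_{j+m-1}`. -/
def factor (u : ℕ → α) (j m : ℕ) : List α :=
  (List.range m).map fun k => u (j + k)

/-- A finite word is rich if it has exactly `|w| + 1` distinct palindromic factors
(the empty word included). -/
def RichWord (w : List α) : Prop :=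
  {s : List α | s <:+: w ∧ s.Palindrome}.ncard = w.length + 1

/-- A sequence is rich if all its factors are rich. -/
def RichSeq (u : ℕ → α) : Prop :=
  ∀ j m : ℕ, RichWord (factor u j m)

/-- The smallest period of a word. -/
noncomputable def minPeriod (z : List α) : ℕ :=
  sInf {q : ℕ | 0 < q ∧ z.HasPeriod q}

/-- The exponent of a word: length divided by smallest period. -/
noncomputable def exponent (z : List α) : ℝ≥0∞ :=
  (z.length : ℝ≥0∞) / (minPeriod z : ℝ≥0∞)

/-- The critical exponent: supremum of the exponents of the nonempty factors. -/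
noncomputable def critExp (u : ℕ → α) : ℝ≥0∞ :=
  ⨆ (j : ℕ) (m : ℕ) (_ : 0 < m), exponent (factor u j m)

open Classical in
/-- The asymptotic critical exponent (the limit of a non-increasing sequence is its infimum). -/
noncomputable def asympCritExp (u : ℕ → α) : ℝ≥0∞ :=
  if critExp u = ⊤ then ⊤
  else ⨅ n : ℕ, ⨆ (j : ℕ) (m : ℕ) (_ : 0 < m) (_ : n ≤ m), exponent (factor u j m)

/-- The repetition threshold of the class of rich sequences over `d` letters. -/
noncomputable def RT (d : ℕ) : ℝ≥0∞ :=
  ⨅ (u : ℕ → Fin d) (_ : RichSeq u), critExp u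

/-- The morphism `i ↦ 0 (i+1)` for `i ≤ n - 2`, `n - 1 ↦ 0 (n-1) (n-1)`. -/
def phi (n : ℕ) (i : ℕ) : List ℕ :=
  if i + 1 < n then [0, i + 1] else [0, i, i]

/-- The fixed point `u_n` of `phi n` starting with `0`: its `k`-th letter is read off
the `(k+1)`-st iterate of the morphism on the word `0`. -/
def uSeq (n : ℕ) (k : ℕ) : ℕ :=
  ((fun w : List ℕ => w.flatMap (phi n))^[k + 1] [0]).getD k 0

end Pool.Agent.Lib.MP_9d05bc_co
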