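import Pool.Agent.Lib.MP_9d05bc_co.Defs

/-!
Images of sequences under marker morphisms `x ↦ a q_x` (`q_x` a palindrome without `a`).
-/

namespace Pool.Agent.Lib.MP_9d05bc_co

variable {B : Type}

/-- `w` is the image of `v` under the morphism sending `x` to
`blk x 0 ⋯ blk x (len x - 1)`; `c n` is the position where the image of `v n` starts. -/
structure Img (a : B) (len : ℕ → ℕ) (blk : ℕ → ℕ → B) (mis : ℕ → ℕ → ℕ)
    (v : ℕ → ℕ) (w : ℕ → B) (c : ℕ → ℕ) : Prop where
  c0 : c 0 = 0
  succ : ∀ n, c (n + 1) = c n + len (v n)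
  val : ∀ n r, r ≤ len (v n) → w (c n + r) = blk (v n) r
  pos : ∀ n, 0 < len (v n)
  mark : ∀ n r, r ≤ len (v n) → (blk (v n) r = a ↔ r = 0 ∨ r = len (v n))
  pal : ∀ n r, r ≤ len (v n) → blk (v n) (len (v n) - r) = blk (v n) r
  mis_ne : ∀ n m, v n ≠ v m → blk (v n) (mis (v n) (v m)) ≠ blk (v m) (mis (v n) (v m))
  mis_eq : ∀ n m r, v n ≠ v m → r < mis (v n) (v m) → blk (v n) r = blk (v m) r
  mis_le : ∀ n m, v n ≠ v m → mis (v n) (v m) ≤ len (v n) ∧ mis (v n) (v m) ≤ len (v m)

namespace Img

variable {a : B} {len : ℕ → ℕ} {blk : ℕ → ℕ → B} {mis : ℕ → ℕ → ℕ}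
  {v : ℕ → ℕ} {w : ℕ → B} {c : ℕ → ℕ}

lemma strictMono (h : Img a len blk mis v w c) : StrictMono c :=
  strictMono_nat_of_lt_succ fun n => by have := h.succ n; have := h.pos n; omega

lemma mono (h : Img a len blk mis v w c) {n m : ℕ} (hnm : n ≤ m) : c n ≤ c m :=
  h.strictMono.monotone hnm

lemma lt_of_lt (h : Img a len blk mis v w c) {n m : ℕ} (hnm : c n < c m) : n < m :=
  h.strictMono.lt_iff_lt.1 hnm

lemma le_of_le (h : Img a len blk mis v w c) {n m : ℕ} (hnm : c n ≤ c m) : n ≤ m :=
  h.strictMono.le_iff_le.1 hnm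

lemma add_le (h : Img a len blk mis v w c) (n m : ℕ) : c n + m ≤ c (n + m) := by
  induction m with
  | zero => simp
  | succ m ih => have := h.succ (n + m); have := h.pos (n + m); rw [← add_assoc n]; omega

lemma locate (h : Img a len blk mis v w c) (i : ℕ) : ∃ n, c n ≤ i ∧ i < c (n + 1) := by
  induction i with
  | zero => exact ⟨0, by rw [h.c0], by have := h.succ 0; have := h.pos 0; omega⟩
  | succ i ih =>
    obtain ⟨n, h1, h2⟩ := ih
    by_cases h3 : i + 1 < c (n + 1)
    · exact ⟨n, by omega, h3⟩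
    · exact ⟨n + 1, by omega, by have := h.succ (n + 1); have := h.pos (n + 1); omega⟩

lemma locate' (h : Img a len blk mis v w c) (i : ℕ) (hi : 0 < i) :
    ∃ n, c n < i ∧ i ≤ c (n + 1) := by
  obtain ⟨n, h1, h2⟩ := h.locate (i - 1)
  exact ⟨n, by omega, by omega⟩

lemma val' (h : Img a len blk mis v w c) (n x : ℕ) (h1 : c n ≤ x) (h2 : x ≤ c (n + 1)) :
    w x = blk (v n) (x - c n) := by
  have := h.succ n
  rw [← h.val n _ (by omega)]; congr 1; omega

lemma lval (h : Img a len blk mis v w c) (n r : ℕ) (hr : r ≤ len (v n)) :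
    w (c (n + 1) - r) = blk (v n) r := by
  have := h.succ n
  rw [← h.pal n r hr, ← h.val n _ (by omega)]; congr 1; omega

lemma cut (h : Img a len blk mis v w c) (n : ℕ) : w (c n) = a := by
  have := h.val n 0 (by omega)
  rw [add_zero] at this
  rw [this, h.mark n 0 (by omega)]; exact Or.inl rfl

lemma eq_cut (h : Img a len blk mis v w c) {x : ℕ} (hx : w x = a) : ∃ n, x = c n := by
  obtain ⟨n, h1, h2⟩ := h.locate x
  have := h.succ n
  rw [h.val' n x h1 h2.le, h.mark n _ (by omega)] at hx
  exact ⟨n, by omega⟩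

lemma ne_of_between (h : Img a len blk mis v w c) {n x : ℕ} (h1 : c n < x) (h2 : x < c (n + 1)) :
    w x ≠ a := by
  intro hx
  obtain ⟨m, rfl⟩ := h.eq_cut hx
  have := h.lt_of_lt h1
  have := h.lt_of_lt h2
  omega

lemma mis_pos (h : Img a len blk mis v w c) {n m : ℕ} (hnm : v n ≠ v m) : 0 < mis (v n) (v m) := by
  rcases Nat.eq_zero_or_pos (mis (v n) (v m)) with h0 | h0
  · have := h.mis_ne n m hnm
    rw [h0, (h.mark n 0 (by omega)).2 (Or.inl rfl), (h.mark m 0 (by omega)).2 (Or.inl rfl)] at this
    exact absurd rfl this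
  · exact h0

/-- Equal right readings force equal letters. -/
lemma eq_of_right (h : Img a len blk mis v w c) {n m : ℕ}
    (H : ∀ r, r ≤ len (v n) → r ≤ len (v m) → w (c n + r) = w (c m + r)) : v n = v m := by
  by_contra hne
  obtain ⟨h1, h2⟩ := h.mis_le n m hne
  have := H _ h1 h2
  rw [h.val n _ h1, h.val m _ h2] at this
  exact h.mis_ne n m hne this

lemma eq_of_left_right (h : Img a len blk mis v w c) {n m : ℕ}
    (H : ∀ r, r ≤ len (v n) → r ≤ len (v m) → w (c n + r) = w (c (m + 1) - r)) : v n = v m := by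
  by_contra hne
  obtain ⟨h1, h2⟩ := h.mis_le n m hne
  have := H _ h1 h2
  rw [h.val n _ h1, h.lval m _ h2] at this
  exact h.mis_ne n m hne this

/-- Equal blocks give equal positions. -/
lemma shift_c (h : Img a len blk mis v w c) {α β s : ℕ}
    (H : ∀ t, t < s → v (α + t) = v (β + t)) : c (α + s) + c β = c (β + s) + c α := by
  induction s with
  | zero => simp [add_comm]
  | succ s ih =>
    have := ih fun t ht => H t (by omega)
    have h1 := h.succ (α + s)
    have h2 := h.succ (β + s)
    rw [H s (by omega)] at h1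
    rw [← add_assoc, ← add_assoc]; omega

lemma shift_w (h : Img a len blk mis v w c) {α β s : ℕ}
    (H : ∀ t, t < s → v (α + t) = v (β + t)) (r : ℕ) (hr : c α + r ≤ c (α + s)) :
    w (c α + r) = w (c β + r) := by
  rcases Nat.eq_or_lt_of_le hr with he | hlt
  · have := h.shift_c H
    rw [he, show c β + r = c (β + s) by omega, h.cut, h.cut]
  · obtain ⟨n, h1, h2⟩ := h.locate (c α + r)
    have hn1 : α ≤ n := by
      have := h.lt_of_lt (n := α) (m := n + 1) (by omega); omega
    have hn2 : n < α + s := h.lt_of_lt (by omega)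
    obtain ⟨t, rfl⟩ := Nat.exists_eq_add_of_le hn1
    have e := h.shift_c (s := t) fun t' ht' => H t' (by omega)
    have e1 := h.succ (α + t)
    have e2 := h.succ (β + t)
    have e3 := H t (by omega)
    rw [h.val' _ _ h1 h2.le, h.val' (β + t) (c β + r) (by omega) (by rw [← e3] at e2; omega), e3]
    congr 1; omega

/-- Converse of `shift_w`. -/
lemma shift_v (h : Img a len blk mis v w c) {α β s : ℕ}
    (H : ∀ r, c α + r ≤ c (α + s) → w (c α + r) = w (c β + r)) :
    ∀ t, t < s → v (α + t) = v (β + t) := by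
  intro t
  induction t using Nat.strong_induction_on with
  | _ t ih =>
    intro ht
    have e := h.shift_c (s := t) fun t' ht' => ih t' ht' (by omega)
    refine h.eq_of_right fun r hr _ => ?_
    have h1 := h.mono (show α ≤ α + t by omega)
    have h2 := h.mono (show α + t + 1 ≤ α + s by omega)
    have h3 := h.succ (α + t)
    have := H (c (α + t) - c α + r) (by omega)
    rw [show c (α + t) + r = c α + (c (α + t) - c α + r) by omega, this]
    congr 1; omega

lemma sym_c (h : Img a len blk mis v w c) {α β s : ℕ} (hs : α + s ≤ β)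
    (H : ∀ t, t < s → v (α + t) = v (β - t - 1)) : c (α + s) + c (β - s) = c α + c β := by
  induction s with
  | zero => simp
  | succ s ih =>
    have := ih (by omega) fun t ht => H t (by omega)
    have h1 := h.succ (α + s)
    have h2 := h.succ (β - s - 1)
    rw [H s (by omega)] at h1
    rw [show β - s - 1 + 1 = β - s by omega] at h2
    rw [← add_assoc, show β - (s + 1) = β - s - 1 by omega]; omega

/-- A palindrome of blocks gives a palindrome from cut to cut. -/
lemma sym_w (h : Img a len blk mis v w c) {α β : ℕ}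
    (H : ∀ x y, α ≤ x → α ≤ y → x + y + 1 = α + β → v x = v y) (x y : ℕ) (hx : c α ≤ x)
    (hy : c α ≤ y) (hxy : x + y = c α + c β) : w x = w y := by
  have H' : ∀ s, α + s ≤ β → c (α + s) + c (β - s) = c α + c β := fun s hs =>
    h.sym_c hs fun t ht => H _ _ (by omega) (by omega) (by omega)
  rcases Nat.eq_or_lt_of_le hy with he | hlt
  · rw [← he, show x = c β by omega, h.cut, h.cut]
  · obtain ⟨n, h1, h2⟩ := h.locate x
    have hn1 : α ≤ n := by
      have := h.lt_of_lt (n := α) (m := n + 1) (by omega); omega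
    have hn2 : n < β := h.lt_of_lt (by omega)
    obtain ⟨t, rfl⟩ := Nat.exists_eq_add_of_le hn1
    have e := H' t (by omega)
    have e1 := h.succ (α + t)
    have e3 : v (α + t) = v (β - t - 1) := H _ _ (by omega) (by omega) (by omega)
    have := h.lval (β - t - 1) (x - c (α + t)) (by rw [← e3]; omega)
    rw [show β - t - 1 + 1 = β - t by omega] at this
    rw [h.val' _ _ h1 h2.le, e3, ← this]
    congr 1; omega

lemma sym_v (h : Img a len blk mis v w c) {α β : ℕ}
    (H : ∀ x y, c α ≤ x → c α ≤ y → x + y = c α + c β → w x = w y) (x y : ℕ) (hx : α ≤ x)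
    (hy : α ≤ y) (hxy : x + y + 1 = α + β) : v x = v y := by
  have key : ∀ t, α + t < β → v (α + t) = v (β - t - 1) := by
    intro t
    induction t using Nat.strong_induction_on with
    | _ t ih =>
      intro ht
      have e := h.sym_c (s := t) (β := β) (by omega) fun t' ht' => ih t' ht' (by omega)
      refine h.eq_of_left_right fun r hr hr' => ?_
      rw [show β - t - 1 + 1 = β - t by omega]
      have h1 := h.mono (show α ≤ α + t by omega)
      have h2 := h.mono (show α ≤ β - t - 1 by omega)
      have h3 := h.succ (β - t - 1)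
      rw [show β - t - 1 + 1 = β - t by omega] at h3
      exact H _ _ (by omega) (by omega) (by omega)
  obtain ⟨t, rfl⟩ := Nat.exists_eq_add_of_le hx
  rw [key t (by omega)]; congr 1; omega

end Img

end Pool.Agent.Lib.MP_9d05bc_co
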