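import Pool.Agent.Lib.MP_9d05bc_co.Phi

/-!
Lengths, overhangs and common prefixes at all levels of the desubstitution.
-/

namespace Pool.Agent.Lib.MP_9d05bc_co

def lv (N : ℕ) (l0 : ℕ → ℕ) : ℕ → ℕ → ℕ
  | 0 => l0
  | k + 1 => lUp (lenP N) (blkP N) (lv N l0 k)

def pv (N : ℕ) (l0 : ℕ → ℕ) (p0 : ℕ) : ℕ → ℕ
  | 0 => p0
  | k + 1 => pv N l0 p0 k + lv N l0 k 0

def ev (N : ℕ) (l0 : ℕ → ℕ) (e0 : ℕ → ℕ → ℕ) : ℕ → ℕ → ℕ → ℕ
  | 0 => e0
  | k + 1 => eUp (blkP N) (misP N) (lv N l0 k) (ev N l0 e0 k)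

variable {N : ℕ} {l0 : ℕ → ℕ} {p0 : ℕ} {e0 : ℕ → ℕ → ℕ}

lemma lv_lt (k x : ℕ) (h : x + 1 < N) : lv N l0 (k + 1) x = lv N l0 k 0 + lv N l0 k (x + 1) := by
  have e : sg N x = x + 1 := by unfold sg; omega
  simp [lv, lUp, lenP, h, Wt, Finset.sum_range_succ, blkP, e]

lemma lv_last (k x : ℕ) (h : x + 1 = N) :
    lv N l0 (k + 1) x = lv N l0 k 0 + 2 * lv N l0 k x := by
  have e : sg N x = x := by unfold sg; omega
  have h' : ¬ x + 1 < N := by omega
  simp [lv, lUp, lenP, h', Wt, Finset.sum_range_succ, blkP, e]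
  ring

lemma ev_ne (k x y : ℕ) (h : sg N x ≠ sg N y) :
    ev N l0 e0 (k + 1) x y = ev N l0 e0 k (sg N x) (sg N y) := by
  have e : ∀ z, blkP N z 1 = sg N z := fun z => by
    unfold blkP lenP; rw [if_neg (by split_ifs <;> simp)]
  simp [ev, eUp, misP, h, Wt, e]

lemma ev_a (k x : ℕ) (h : x + 2 = N) :
    ev N l0 e0 (k + 1) x (x + 1) = lv N l0 k (x + 1) + ev N l0 e0 k 0 (x + 1) := by
  have e1 : sg N x = x + 1 := by unfold sg; omega
  have e2 : sg N (x + 1) = x + 1 := by unfold sg; omega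
  have h1 : x + 1 < N := by omega
  have h2 : ¬ x + 1 + 1 < N := by omega
  simp [ev, eUp, misP, e1, e2, Wt, blkP, lenP, h1, h2]

lemma ev_b (k x : ℕ) (h : x + 2 = N) :
    ev N l0 e0 (k + 1) (x + 1) x = lv N l0 k (x + 1) + ev N l0 e0 k (x + 1) 0 := by
  have e1 : sg N x = x + 1 := by unfold sg; omega
  have e2 : sg N (x + 1) = x + 1 := by unfold sg; omega
  have h1 : x + 1 < N := by omega
  have h2 : ¬ x + 1 + 1 < N := by omega
  simp [ev, eUp, misP, e1, e2, Wt, blkP, lenP, h1, h2]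

lemma lv_ge (k x : ℕ) (hx : x < N) :
    lv N l0 k 0 + lv N l0 k (sg N x) ≤ lv N l0 (k + 1) x := by
  by_cases h : x + 1 < N
  · rw [lv_lt k x h, show sg N x = x + 1 by unfold sg; omega]
  · rw [lv_last k x (by omega), show sg N x = x by unfold sg; omega]; omega

lemma pv_le (h0 : ∀ j, j < N → p0 ≤ l0 j) (k j : ℕ) (hj : j < N) :
    pv N l0 p0 k ≤ lv N l0 k j := by
  induction k generalizing j with
  | zero => exact h0 j hj
  | succ k ih =>
    have := lv_ge (l0 := l0) k j hj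
    have := ih (sg N j) (by unfold sg; omega)
    simp only [pv]; omega

lemma ev_le (hN : 3 ≤ N) (h0 : ∀ i, i < N → ∀ j, j < N → i ≠ j → e0 i j ≤ l0 i ∧ e0 i j = e0 j i)
    (k i : ℕ) (hi : i < N) (j : ℕ) (hj : j < N) (hij : i ≠ j) :
    ev N l0 e0 k i j ≤ lv N l0 k i ∧ ev N l0 e0 k i j = ev N l0 e0 k j i := by
  induction k generalizing i j with
  | zero => exact h0 i hi j hj hij
  | succ k ih =>
    have h1 := lv_ge (l0 := l0) k i hi
    by_cases h : sg N i = sg N j
    · obtain ⟨x, hx⟩ : ∃ x, x + 2 = N := ⟨N - 2, by omega⟩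
      have h2 := ih 0 (by omega) (x + 1) (by omega) (by omega)
      have h3 : sg N i = x + 1 := by unfold sg at *; omega
      rw [h3] at h1
      rcases (show i = x ∧ j = x + 1 ∨ i = x + 1 ∧ j = x by unfold sg at *; omega) with
        ⟨rfl, rfl⟩ | ⟨rfl, rfl⟩
      · rw [ev_a k _ hx, ev_b k _ hx]; omega
      · rw [ev_a k _ hx, ev_b k _ hx]; omega
    · have h2 := ih (sg N i) (by unfold sg; omega) (sg N j) (by unfold sg; omega) h
      rw [ev_ne k i j h, ev_ne k j i (Ne.symm h)]; omega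

lemma ev_far (s i j m X : ℕ) (hX : X + 1 = N) (hi : i + s + 1 = X) (hij : i < j) (hj : j < N) :
    ev N l0 e0 (m + s + 1) i j = lv N l0 m X + ev N l0 e0 m 0 X := by
  induction s generalizing i j with
  | zero =>
    obtain rfl : j = i + 1 := by omega
    obtain rfl : X = i + 1 := by omega
    exact ev_a m i (by omega)
  | succ s ih =>
    rw [← add_assoc, ev_ne _ i j (by unfold sg; omega)]
    exact ih _ _ (by unfold sg; omega) (by unfold sg; omega) (by unfold sg; omega)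

lemma lv_far (s i m X : ℕ) (hX : X + 1 = N) (hi : i + s = X) :
    lv N l0 (m + s) i + pv N l0 p0 m = pv N l0 p0 (m + s) + lv N l0 m X := by
  induction s generalizing i with
  | zero => obtain rfl : X = i := by omega
            simp [add_comm]
  | succ s ih =>
    have := ih (i + 1) (by omega)
    rw [← add_assoc, lv_lt _ i (by omega)]
    simp only [pv]; omega

lemma pv_rec (X : ℕ) (hX : X + 1 = N) (k : ℕ) :
    (pv N l0 p0 (k + X + 2) : ℤ) =
      4 * pv N l0 p0 (k + X + 1) - 4 * pv N l0 p0 (k + X) + pv N l0 p0 k := by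
  have h1 := lv_far (l0 := l0) (p0 := p0) X 0 k X hX (by omega)
  have h2 := lv_far (l0 := l0) (p0 := p0) X 0 (k + 1) X hX (by omega)
  have h3 := lv_last (l0 := l0) k X hX
  rw [show k + 1 + X = k + X + 1 by omega] at h2
  have h4 : pv N l0 p0 (k + X + 2) = pv N l0 p0 (k + X + 1) + lv N l0 (k + X + 1) 0 := rfl
  have h5 : pv N l0 p0 (k + X + 1) = pv N l0 p0 (k + X) + lv N l0 (k + X) 0 := rfl
  have h6 : pv N l0 p0 (k + 1) = pv N l0 p0 k + lv N l0 k 0 := rfl
  omega

lemma lv_zero_eq (k : ℕ) : (lv N l0 k 0 : ℤ) = pv N l0 p0 (k + 1) - pv N l0 p0 k := by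
  simp [pv]

lemma xv_eq (X : ℕ) (hX : X + 1 = N) (k : ℕ) : (lv N l0 k X : ℤ) =
    pv N l0 p0 (k + X + 1) - 2 * pv N l0 p0 (k + X) + pv N l0 p0 k := by
  have h1 := lv_far (l0 := l0) (p0 := p0) X 0 k X hX (by omega)
  have h5 : pv N l0 p0 (k + X + 1) = pv N l0 p0 (k + X) + lv N l0 (k + X) 0 := rfl
  omega

lemma xv_rec (X : ℕ) (hX : X + 1 = N) (k : ℕ) :
    (lv N l0 (k + X + 2) X : ℤ) =
      4 * lv N l0 (k + X + 1) X - 4 * lv N l0 (k + X) X + lv N l0 k X := by
  have h1 := pv_rec (l0 := l0) (p0 := 0) X hX k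
  have h2 := pv_rec (l0 := l0) (p0 := 0) X hX (k + X)
  have h3 := pv_rec (l0 := l0) (p0 := 0) X hX (k + X + 1)
  rw [xv_eq (p0 := 0) X hX, xv_eq (p0 := 0) X hX, xv_eq (p0 := 0) X hX, xv_eq (p0 := 0) X hX]
  rw [show k + X + 2 + X + 1 = k + X + 1 + X + 2 by omega,
    show k + X + 2 + X = k + X + X + 2 by omega]
  rw [show k + X + 1 + X + 1 = k + X + X + 2 by omega,
    show k + X + 1 + X = k + X + X + 1 by omega] at *
  linarith

lemma pos_rec (g : ℕ → ℤ) (M K : ℕ)
    (hrec : ∀ k, g (k + M + 2) = 4 * g (k + M + 1) - 4 * g (k + M) + g k)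
    (h0 : ∀ i, i ≤ M → 0 ≤ g (K + i)) (h1 : 2 * g (K + M) ≤ g (K + M + 1)) (k : ℕ) (hk : K ≤ k) :
    0 ≤ g k := by
  have key : ∀ t, (∀ i, i ≤ M → 0 ≤ g (K + t + i)) ∧ 2 * g (K + t + M) ≤ g (K + t + M + 1) := by
    intro t
    induction t with
    | zero => exact ⟨h0, h1⟩
    | succ t ih =>
      obtain ⟨a1, a2⟩ := ih
      have b0 := a1 0 (by omega)
      have bM := a1 M le_rfl
      have r := hrec (K + t)
      rw [add_zero] at b0
      refine ⟨fun i hi => ?_, ?_⟩
      · rcases Nat.eq_or_lt_of_le hi with rfl | hlt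
        · rw [show K + (t + 1) + i = K + t + i + 1 by omega]; linarith
        · rw [show K + (t + 1) + i = K + t + (i + 1) by omega]; exact a1 _ hlt
      · rw [show K + (t + 1) + M + 1 = K + t + M + 2 by omega,
          show K + (t + 1) + M = K + t + M + 1 by omega]
        linarith
  obtain ⟨t, rfl⟩ := Nat.exists_eq_add_of_le hk
  exact (key t).1 0 (by omega)

/-! ### Fast tables -/

def nextT (N : ℕ) (T : List ℕ × ℕ) : List ℕ × ℕ :=
  ((List.range N).map fun x =>
    if x + 1 < N then T.1.getD 0 0 + T.1.getD (x + 1) 0 else T.1.getD 0 0 + 2 * T.1.getD x 0,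
   T.2 + T.1.getD 0 0)

def tab (N : ℕ) (l0 : ℕ → ℕ) (p0 : ℕ) : ℕ → List ℕ × ℕ
  | 0 => ((List.range N).map l0, p0)
  | k + 1 => nextT N (tab N l0 p0 k)

lemma tab_eq (hN : 0 < N) (k : ℕ) :
    (∀ x, x < N → lv N l0 k x = (tab N l0 p0 k).1.getD x 0) ∧ pv N l0 p0 k = (tab N l0 p0 k).2 := by
  induction k with
  | zero => exact ⟨fun x hx => by simp [tab, lv, List.getD, hx], rfl⟩
  | succ k ih =>
    refine ⟨fun x hx => ?_, by simp only [pv, tab, nextT, ih.2, ih.1 0 hN]⟩
    have e : (tab N l0 p0 (k + 1)).1.getD x 0 =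
        if x + 1 < N then (tab N l0 p0 k).1.getD 0 0 + (tab N l0 p0 k).1.getD (x + 1) 0
        else (tab N l0 p0 k).1.getD 0 0 + 2 * (tab N l0 p0 k).1.getD x 0 := by
      simp [tab, nextT, List.getD, hx]
    rw [e]
    split_ifs with h
    · rw [lv_lt k x h, ih.1 0 hN, ih.1 _ h]
    · rw [lv_last k x (by omega), ih.1 0 hN, ih.1 _ hx]

/-! ### The bound for all maximal runs from finitely many families of inequalities -/

structure Good (N : ℕ) (l : ℕ → ℕ) (p : ℕ) (e : ℕ → ℕ → ℕ) : Prop where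
  n1 : ∀ j, j < N → p ≤ l j
  n2 : ∀ i, i < N → ∀ j, j < N → i ≠ j → e i j ≤ l i ∧ e i j = e j i
  n3 : ∀ j, j < N → 0 < j → 641 * (p + 2 * e 0 j) ≤ 679 * l j
  n4 : ∀ j, j < N → 2 ≤ j → 641 * (p + e 0 1 + e 0 j) ≤ 679 * l 0
  n5 : 641 * (p + 2 * e 0 (N - 1)) ≤ 679 * l 0
  n6 : 641 * (p + 2 * e 0 (N - 1)) ≤ 38 * l (N - 1)

lemma base_bound (hN : 3 ≤ N) {l : ℕ → ℕ} {p : ℕ} {e : ℕ → ℕ → ℕ} (G : Good N l p e)
    {i r n : ℕ} (hm : MaxRun (uSeq N) i r n) (h0 : ∀ t, t < n → uSeq N (i + t) ≠ 0) :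
    641 * Val l p e (uSeq N) i r n ≤ 679 * Wt l (uSeq N) i r := by
  obtain ⟨hr, hrun, hR, hL⟩ := hm
  have ult := uSeq_lt N (by omega)
  have L1 := u_L1 N hN
  have L2 := u_L2 N hN
  have L3 := u_L3 N hN
  have u0 := u_zero N hN
  set u := uSeq N with hu
  have n4' : ∀ j, j < N → 0 < j → 641 * (p + e 0 j) ≤ 679 * l 0 := by
    intro j hj hj0
    by_cases h : j = 1
    · subst h; have := G.n4 2 (by omega) le_rfl; omega
    · have := G.n4 j hj (by omega); omega
  have sym : ∀ i j, i < N → j < N → i ≠ j → e i j = e j i := fun i j hi hj h =>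
    (G.n2 i hi j hj h).2
  obtain ⟨r, rfl⟩ : ∃ r', r = r' + 1 := ⟨r - 1, by omega⟩
  rcases n with _ | _ | n
  · -- empty run
    unfold Val
    simp only [Wt_zero, add_zero, zero_add] at hR ⊢
    have eR := G.n2 _ (ult i) _ (ult (i + (r + 1))) hR
    have hEL : eL e u i (r + 1) ≤ l (u (i + r)) := by
      unfold eL
      split_ifs with hi
      · omega
      · have h1 := hL (i - 1) (by omega)
        rw [show i - 1 + (r + 1) = i + r by omega] at h1 ⊢
        rw [sym _ _ (ult _) (ult _) h1]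
        exact (G.n2 _ (ult _) _ (ult _) h1.symm).1
    rcases r with _ | _ | r
    · -- period one
      simp only [zero_add, Wt_succ, Wt_zero, add_zero] at *
      rcases i with _ | i
      · rw [u0] at hR ⊢
        have := n4' _ (ult (0 + 1)) (by omega)
        simpa [eL] using this
      · have h1 := hL i rfl
        simp only [eL, Nat.add_sub_cancel, Nat.succ_ne_zero, if_false]
        by_cases hz : u (i + 1) = 0
        · rw [hz] at hR h1 ⊢
          rw [sym _ _ (ult i) (by omega) h1]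
          have a1 := G.n4 _ (ult i)
          have a2 := G.n4 _ (ult (i + 2))
          have a3 := G.n5
          rcases L3 i hz with ⟨b1, b2⟩ | ⟨b1, b2⟩ | ⟨b1, b2⟩
          · have := a2 b2; rw [b1]; change 641 * (p + e 0 (u (i + 2)) + e 0 1) ≤ _; omega
          · have := a1 b1
            change 641 * (p + e 0 (u (i + 2)) + e 0 (u i)) ≤ _; rw [b2]; omega
          · change 641 * (p + e 0 (u (i + 2)) + e 0 (u i)) ≤ _; rw [b1, b2]; omega
        · have z1 : u i = 0 := by
            by_contra hc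
            have := L2 i hc hz; omega
          have z2 : u (i + 1 + 1) = 0 := by
            by_contra hc
            have := L2 (i + 1) hz hc; omega
          rw [z1, z2, sym _ 0 (ult _) (by omega) hz]
          have := G.n3 _ (ult (i + 1)) (by omega)
          omega
    · -- period two
      simp only [zero_add, Wt_succ, Wt_zero, add_zero] at *
      by_cases hz : u i = 0
      · rw [hz] at hR ⊢
        have := n4' _ (ult (i + (1 + 1))) (by omega)
        omega
      · obtain ⟨i, rfl⟩ : ∃ i', i = i' + 1 := by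
          rcases i with _ | i
          · exact absurd u0 hz
          · exact ⟨i, rfl⟩
        have h1 := hL i rfl
        simp only [eL, Nat.add_sub_cancel, Nat.succ_ne_zero, if_false] at *
        by_cases hz' : u (i + 1 + 1) = 0
        · change u i ≠ u (i + 1 + 1) at h1
          change 641 * (p + _ + e (u i) (u (i + 1 + 1))) ≤ _
          rw [hz'] at h1 ⊢
          rw [sym _ 0 (ult i) (by omega) h1]
          have := n4' _ (ult i) (by omega)
          omega
        · obtain ⟨b1, b2, b3, b4⟩ := L2 (i + 1) hz hz'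
          rw [Nat.add_sub_cancel] at b4
          change 641 * (p + e (u (i + 1)) (u (i + 1 + 2)) + e (u i) (u (i + 1 + 1))) ≤ _
          rw [b1, b2, b3, b4, sym _ 0 (by omega) (by omega) (by omega)]
          have := G.n6
          omega
    · -- longer periods
      have h1 : Wt l u i (r + 1 + 1 + 1) = Wt l u i 2 + Wt l u (i + 2) r + l (u (i + (r + 1 + 1))) := by
        rw [Wt_succ, show r + 1 + 1 = 2 + r by omega, Wt_add]
      have h2 : Wt l u i 2 = l (u i) + l (u (i + 1)) := by simp [Wt_succ, Wt_zero]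
      have h3 := G.n1 _ (ult (i + 1))
      omega
  · -- a run of one letter
    have hz := h0 0 (by omega)
    have ht := hrun 0 (by omega)
    simp only [add_zero, zero_add] at hz ht hR
    obtain ⟨i, rfl⟩ : ∃ i', i = i' + 1 := by
      rcases i with _ | i
      · exact absurd u0 hz
      · exact ⟨i, rfl⟩
    have h1 := hL i rfl
    have hW : l (u (i + 1)) ≤ Wt l u (i + 1) (r + 1) := by
      rw [add_comm r 1, Wt_add]; simp [Wt_succ, Wt_zero]
    have a1 := L2 i
    have a2 := L2 (i + 1)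
    have a3 := L2 (i + (r + 1))
    have a4 := L2 (i + 1 + (r + 1))
    rw [show i + (r + 1) + 1 = i + 1 + (r + 1) by omega] at a3
    unfold Val
    simp only [eL, Nat.add_sub_cancel, Nat.succ_ne_zero, if_false, Wt_succ, Wt_zero, zero_add,
      add_zero] at hW ⊢
    have s0 := sym 0 (N - 1) (by omega) (by omega) (by omega)
    have hX : u (i + 1) = N - 1 := by omega
    have c1 : e (u i) (u (i + (r + 1))) = e 0 (N - 1) := by
      rcases (show u i = 0 ∧ u (i + (r + 1)) = N - 1 ∨ u i = N - 1 ∧ u (i + (r + 1)) = 0 by omega)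
        with ⟨b1, b2⟩ | ⟨b1, b2⟩ <;> rw [b1, b2]
      exact s0.symm
    have c2 : e (u (i + 1 + 1)) (u (i + 1 + (r + 1) + 1)) = e 0 (N - 1) := by
      rcases (show u (i + 1 + 1) = 0 ∧ u (i + 1 + (r + 1) + 1) = N - 1 ∨
        u (i + 1 + 1) = N - 1 ∧ u (i + 1 + (r + 1) + 1) = 0 by omega)
        with ⟨b1, b2⟩ | ⟨b1, b2⟩ <;> rw [b1, b2]
      exact s0.symm
    rw [c1, c2]
    rw [hX] at hW ⊢
    have := G.n6
    omega
  · -- longer runs contain a zero
    exfalso
    have z0 := h0 0 (by omega)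
    have z1 := h0 1 (by omega)
    have t0 := hrun 0 (by omega)
    have t1 := hrun 1 (by omega)
    simp only [add_zero] at z0 t0
    have a1 := L2 i z0 z1
    have a2 := L2 (i + (r + 1)) (by omega) (by omega)
    rcases n with _ | n
    · exact hR (a1.2.2.1.trans a2.2.2.1.symm)
    · exact h0 2 (by omega) a1.2.2.1

theorem run_bound (hN : 3 ≤ N)
    (G : ∀ k, Good N (lv N l0 k) (pv N l0 p0 k) (ev N l0 e0 k)) (n k i r : ℕ)
    (hm : MaxRun (uSeq N) i r n) :
    641 * Val (lv N l0 k) (pv N l0 p0 k) (ev N l0 e0 k) (uSeq N) i r n ≤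
      679 * Wt (lv N l0 k) (uSeq N) i r := by
  induction n using Nat.strong_induction_on generalizing k i r with
  | _ n ih =>
    by_cases h : ∃ t, t < n ∧ uSeq N (i + t) = 0
    · obtain ⟨t, ht, h0⟩ := h
      obtain ⟨α, r', n', hm', hlt, e1, e2⟩ :=
        (imgP N hN).descent (lv N l0 k) (pv N l0 p0 k) (ev N l0 e0 k) hm ht h0
      rw [e1, e2]
      exact ih n' hlt (k + 1) α r' hm'
    · push Not at h
      exact base_bound hN (G k) hm h

theorem run_up (hN : 3 ≤ N) (k : ℕ) {α r' n' : ℕ} (hm : MaxRun (uSeq N) α r' n') :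
    ∃ i r n, MaxRun (uSeq N) i r n ∧
      Val l0 p0 e0 (uSeq N) i r n =
        Val (lv N l0 k) (pv N l0 p0 k) (ev N l0 e0 k) (uSeq N) α r' n' ∧
      Wt l0 (uSeq N) i r = Wt (lv N l0 k) (uSeq N) α r' := by
  induction k generalizing α r' n' with
  | zero => exact ⟨α, r', n', hm, rfl, rfl⟩
  | succ k ih =>
    obtain ⟨i, r, n, h1, -, -, -, e1, e2⟩ :=
      (imgP N hN).ascent (lv N l0 k) (pv N l0 p0 k) (ev N l0 e0 k) hm
    obtain ⟨i', r2, n2, h2, e3, e4⟩ := ih h1
    exact ⟨i', r2, n2, h2, e3.trans e1, e4.trans e2⟩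

end Pool.Agent.Lib.MP_9d05bc_co
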