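import Pool.Agent.Lib.MP_9d05bc_co.Upper

/-!
The upper bound for the repetition threshold on five letters and the lower bound for the
asymptotic critical exponent of `u_9`.
-/

open scoped ENNReal NNReal

namespace Pool.Agent.Lib.MP_9d05bc_co

lemma nat_div_le (a b c d : ℕ) (hb : 0 < b) (hd : 0 < d) (h : a * d ≤ c * b) :
    (a : ℝ≥0∞) / b ≤ (c : ℝ≥0∞) / d := by
  have e : ∀ x y : ℕ, 0 < y → (x : ℝ≥0∞) / y = (((x : ℝ≥0) / y : ℝ≥0) : ℝ≥0∞) := by
    intro x y hy
    rw [ENNReal.coe_div (by positivity)]; simp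
  rw [e a b hb, e c d hd, ENNReal.coe_le_coe, div_le_div_iff₀ (by positivity) (by positivity)]
  exact_mod_cast h

lemma nat_div_lt (a b c d : ℕ) (hb : 0 < b) (hd : 0 < d) (h : a * d < c * b) :
    (a : ℝ≥0∞) / b < (c : ℝ≥0∞) / d := by
  have e : ∀ x y : ℕ, 0 < y → (x : ℝ≥0∞) / y = (((x : ℝ≥0) / y : ℝ≥0) : ℝ≥0∞) := by
    intro x y hy
    rw [ENNReal.coe_div (by positivity)]; simp
  rw [e a b hb, e c d hd, ENNReal.coe_lt_coe, div_lt_div_iff₀ (by positivity) (by positivity)]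
  exact_mod_cast h

lemma hasPeriod_factor_iff {B : Type} (w : ℕ → B) (j m q : ℕ) :
    (factor w j m).HasPeriod q ↔ ∀ t, t < m - q → w (j + t) = w (j + q + t) := by
  rw [List.hasPeriod_iff_getElem?, factor_length]
  refine forall_congr' fun t => forall_congr' fun ht => ?_
  rw [List.getElem?_eq_getElem (by rw [factor_length]; omega),
    List.getElem?_eq_getElem (by rw [factor_length]; omega), factor_getElem, factor_getElem,
    Option.some_inj, add_comm t q, add_assoc]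

lemma minPeriod_spec {B : Type} (z : List B) : 0 < minPeriod z ∧ z.HasPeriod (minPeriod z) :=
  Nat.sInf_mem (s := {q : ℕ | 0 < q ∧ z.HasPeriod q})
    ⟨z.length + 1, by omega, List.hasPeriod_of_length_le _ _ (by omega)⟩

theorem critExp_w5 : critExp w5 ≤ 1320 / 641 := by
  refine iSup_le fun j => iSup_le fun m => iSup_le fun _ => ?_
  obtain ⟨h1, h2⟩ := minPeriod_spec (factor w5 j m)
  have h3 := w5_run h1 ((hasPeriod_factor_iff _ _ _ _).1 h2)
  have := nat_div_le m (minPeriod (factor w5 j m)) 1320 641 h1 (by norm_num) (by omega)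
  simpa [exponent, factor_length] using this

theorem RT_five : RT 5 ≤ 1320 / 641 :=
  iInf_le_of_le w5 (iInf_le_of_le w5_rich critExp_w5)

lemma exists_letter (j : ℕ) (hj : j ≤ 8) : ∃ n, uSeq 9 n = j := by
  induction j with
  | zero => exact ⟨0, u_zero 9 (by norm_num)⟩
  | succ j ih =>
    obtain ⟨n, hn⟩ := ih (by omega)
    refine ⟨cP 9 n + 1, ?_⟩
    rw [(imgP 9 (by norm_num)).val n 1 (by unfold lenP; split_ifs <;> omega), hn]
    unfold blkP lenP sg
    rw [if_neg (by split_ifs <;> simp)]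
    omega

lemma exists_square : ∃ α, uSeq 9 α = 0 ∧ uSeq 9 (α + 1) = 8 ∧ uSeq 9 (α + 2) = 8 ∧
    uSeq 9 (α + 3) = 0 := by
  obtain ⟨n, hn⟩ := exists_letter 8 le_rfl
  have h := (imgP 9 (by norm_num)).val n
  rw [hn] at h
  exact ⟨cP 9 n, h 0 (by decide), h 1 (by decide), h 2 (by decide), h 3 (by decide)⟩

lemma g9 (m : ℕ) (hm : 155 ≤ m) : 38001 * lv 9 (fun _ => 1) (m + 16) 8 ≤
    641000 * (pv 9 (fun _ => 1) 0 (m + 16) + 2 * lv 9 (fun _ => 1) (m + 8) 8 +
      2 * lv 9 (fun _ => 1) m 8) := by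
  have l9 : ∀ k, lv 9 (fun _ => 1) k 8 = (tab 9 (fun _ => 1) 0 k).1.getD 8 0 :=
    fun k => (tab_eq (by norm_num) k).1 8 (by norm_num)
  have p9 : ∀ k, pv 9 (fun _ => 1) 0 k = (tab 9 (fun _ => 1) 0 k).2 :=
    fun k => (tab_eq (by norm_num) k).2
  have := pos_rec (fun m => 641000 * (pv 9 (fun _ => 1) 0 (m + 16) +
    2 * lv 9 (fun _ => 1) (m + 8) 8 + 2 * lv 9 (fun _ => 1) m 8 : ℤ) -
      38001 * lv 9 (fun _ => 1) (m + 16) 8) 8 155 (fun k => by
      have h1 := xv_rec (N := 9) (l0 := fun _ => 1) 8 rfl k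
      have h2 := xv_rec (N := 9) (l0 := fun _ => 1) 8 rfl (k + 8)
      have h3 := xv_rec (N := 9) (l0 := fun _ => 1) 8 rfl (k + 16)
      have h4 := pv_rec (N := 9) (l0 := fun _ => 1) (p0 := 0) 8 rfl (k + 16)
      simp only [add_assoc, Nat.reduceAdd] at h1 h2 h3 h4 ⊢
      linarith) (by
      simp only [l9, p9]
      decide +kernel) (by
      simp only [l9, p9]
      decide +kernel) m hm
  omega

lemma x9_ge (k : ℕ) : k + 1 ≤ lv 9 (fun _ => 1) k 8 := by
  induction k with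
  | zero => simp [lv]
  | succ k ih => rw [lv_last (N := 9) _ 8 rfl]; omega

lemma long_runs (n : ℕ) : ∃ j m r, 0 < r ∧ n ≤ m ∧ 1320001 * r ≤ m * 641000 ∧
    (factor (uSeq 9) j m).HasPeriod r := by
  obtain ⟨α, a0, a1, a2, a3⟩ := exists_square
  have hm : MaxRun (uSeq 9) (α + 1) 1 1 := by
    refine ⟨by norm_num, fun t ht => ?_, ?_, fun i' hi' => ?_⟩
    · obtain rfl : t = 0 := by omega
      exact a1.trans a2.symm
    · change uSeq 9 (α + 2) ≠ uSeq 9 (α + 3)
      omega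
    · obtain rfl : i' = α := by omega
      omega
  obtain ⟨i, r, k, h1, h2, h3⟩ := run_up (N := 9) (l0 := fun _ => 1) (p0 := 0)
    (e0 := fun _ _ => 0) (by norm_num) (n + 155 + 16) hm
  have s := (ev_le (N := 9) (l0 := fun _ => 1) (e0 := fun _ _ => 0) (by norm_num) (by simp)
    (n + 155 + 16) 0 (by norm_num) 8 (by norm_num) (by norm_num)).2
  have f1 := ev_far (N := 9) (l0 := fun _ => 1) (e0 := fun _ _ => 0) 7 0 8 (n + 155 + 8) 8 rfl rfl
    (by norm_num) (by norm_num)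
  have f2 := ev_far (N := 9) (l0 := fun _ => 1) (e0 := fun _ _ => 0) 7 0 8 (n + 155) 8 rfl rfl
    (by norm_num) (by norm_num)
  have g := g9 (n + 155) (by omega)
  have x := x9_ge (n + 155 + 16)
  change ev 9 _ _ (n + 155 + 16) 0 8 = _ at f1
  change ev 9 _ _ (n + 155 + 8) 0 8 = _ at f2
  have b2 : uSeq 9 (α + 1 + 1) = 8 := a2
  have b3 : uSeq 9 (α + 1 + 1 + 1) = 0 := a3
  simp only [Val, Wt_one, eL, Wt_succ, Wt_zero, zero_add, add_zero, ite_self, Nat.add_sub_cancel,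
    Nat.succ_ne_zero, if_false, a0, a1, b2, b3] at h2 h3
  refine ⟨i, k + r, r, h1.1, by omega, by omega, (hasPeriod_factor_iff _ _ _ _).2 fun t ht =>
    h1.2.1 t (by omega)⟩

theorem asymp_u9 : (1320 / 641 : ℝ≥0∞) < asympCritExp (uSeq 9) := by
  have h0 : (1320 / 641 : ℝ≥0∞) < (1320001 : ℕ) / (641000 : ℕ) := by
    simpa using nat_div_lt 1320 641 1320001 641000 (by norm_num) (by norm_num) (by norm_num)
  refine h0.trans_le ?_
  unfold asympCritExp
  split_ifs
  · exact le_top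
  · refine le_iInf fun n => ?_
    obtain ⟨j, m, r, h1, h2, h3, h4⟩ := long_runs n
    refine le_iSup_of_le j (le_iSup_of_le m (le_iSup_of_le (by omega) (le_iSup_of_le h2 ?_)))
    have h5 : minPeriod (factor (uSeq 9) j m) ≤ r := Nat.sInf_le ⟨h1, h4⟩
    have h6 := (minPeriod_spec (factor (uSeq 9) j m)).1
    unfold exponent
    rw [factor_length]
    exact nat_div_le _ _ _ _ (by norm_num) h6 (by omega)

end Pool.Agent.Lib.MP_9d05bc_co
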