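import Pool.Agent.Lib.MP_9d05bc_co.Img

/-!
Maximal repetitions and how they pass through a marker morphism.
-/

namespace Pool.Agent.Lib.MP_9d05bc_co

variable {B : Type}

/-- A maximal run of `n` agreements between `w` and its shift by `r`, starting at `i`. -/
def MaxRun (w : ℕ → B) (i r n : ℕ) : Prop :=
  0 < r ∧ (∀ t, t < n → w (i + t) = w (i + r + t)) ∧ w (i + n) ≠ w (i + r + n) ∧
    ∀ i', i = i' + 1 → w i' ≠ w (i' + r)

def Wt (l : B → ℕ) (w : ℕ → B) (i n : ℕ) : ℕ := ∑ t ∈ Finset.range n, l (w (i + t))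

def eL (e : B → B → ℕ) (w : ℕ → B) (i r : ℕ) : ℕ :=
  if i = 0 then 0 else e (w (i - 1)) (w (i - 1 + r))

def Val (l : B → ℕ) (p : ℕ) (e : B → B → ℕ) (w : ℕ → B) (i r n : ℕ) : ℕ :=
  Wt l w i n + p + e (w (i + n)) (w (i + r + n)) + eL e w i r

lemma Wt_zero (l : B → ℕ) (w : ℕ → B) (i : ℕ) : Wt l w i 0 = 0 := by simp [Wt]

lemma Wt_succ (l : B → ℕ) (w : ℕ → B) (i n : ℕ) :
    Wt l w i (n + 1) = Wt l w i n + l (w (i + n)) := by simp [Wt, Finset.sum_range_succ]

lemma Wt_add (l : B → ℕ) (w : ℕ → B) (i n m : ℕ) :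
    Wt l w i (n + m) = Wt l w i n + Wt l w (i + n) m := by
  simp [Wt, Finset.sum_range_add, add_assoc]

lemma Wt_congr (l : B → ℕ) {w w' : ℕ → B} {i i' n : ℕ}
    (h : ∀ t, t < n → w (i + t) = w' (i' + t)) : Wt l w i n = Wt l w' i' n :=
  Finset.sum_congr rfl fun t ht => by rw [h t (Finset.mem_range.1 ht)]

lemma Wt_one (w : ℕ → B) (i n : ℕ) : Wt (fun _ => 1) w i n = n := by simp [Wt]

lemma MaxRun.unique {w : ℕ → B} {i i2 r n n2 x : ℕ} (h : MaxRun w i r n) (h2 : MaxRun w i2 r n2)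
    (a1 : i ≤ x) (a2 : x < i + n) (b1 : i2 ≤ x) (b2 : x < i2 + n2) : i = i2 ∧ n = n2 := by
  have key : ∀ {i i2 n n2}, MaxRun w i r n → MaxRun w i2 r n2 → i2 ≤ x → x < i + n →
      ¬ i < i2 := by
    intro i i2 n n2 h h2 b1 a2 hlt
    obtain ⟨t, rfl⟩ : ∃ t, i2 = i + t + 1 := ⟨i2 - i - 1, by omega⟩
    refine h2.2.2.2 _ rfl ?_
    rw [h.2.1 t (by omega)]; congr 1; omega
  have e : i = i2 := by
    have := key h h2 b1 a2
    have := key h2 h a1 b2
    omega
  subst e
  refine ⟨rfl, ?_⟩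
  rcases lt_trichotomy n n2 with h3 | h3 | h3
  · exact absurd (h2.2.1 n h3) h.2.2.1
  · exact h3
  · exact absurd (h.2.1 n2 h3) h2.2.2.1

lemma exists_maxRun (w : ℕ → B) {j r m : ℕ} (hr : 0 < r)
    (h : ∀ t, t < m → w (j + t) = w (j + r + t)) (hex : ∃ t, w (j + t) ≠ w (j + r + t)) :
    ∃ i n, i ≤ j ∧ j + m ≤ i + n ∧ MaxRun w i r n := by
  classical
  have h1 := Nat.find_spec hex
  have h2 : ∀ t, t < Nat.find hex → w (j + t) = w (j + r + t) := fun t ht =>
    not_not.1 (Nat.find_min hex ht)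
  have h3 : m ≤ Nat.find hex := by
    by_contra hc
    exact h1 (h _ (by omega))
  have hex2 : ∃ i, i ≤ j ∧ ∀ x, i ≤ x → x < j → w x = w (x + r) :=
    ⟨j, le_rfl, fun x h1 h2 => by omega⟩
  obtain ⟨h4, h5⟩ := Nat.find_spec hex2
  refine ⟨Nat.find hex2, j - Nat.find hex2 + Nat.find hex, h4, by omega, hr, fun t ht => ?_, ?_,
    fun i' hi' he => ?_⟩
  · by_cases hj : Nat.find hex2 + t < j
    · rw [h5 _ (by omega) hj]; congr 1; omega
    · have := h2 (Nat.find hex2 + t - j) (by omega)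
      rw [show Nat.find hex2 + t = j + (Nat.find hex2 + t - j) by omega, this]
      congr 1; omega
  · rw [show Nat.find hex2 + (j - Nat.find hex2 + Nat.find hex) = j + Nat.find hex by omega,
      show Nat.find hex2 + r + (j - Nat.find hex2 + Nat.find hex) = j + r + Nat.find hex by omega]
    exact h1
  · refine Nat.find_min hex2 (m := i') (by omega) ⟨by omega, fun x hx hx' => ?_⟩
    rcases Nat.eq_or_lt_of_le hx with rfl | hlt
    · exact he
    · exact h5 x (by omega) hx'

section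
variable (a : B) (len : ℕ → ℕ) (blk : ℕ → ℕ → B) (mis : ℕ → ℕ → ℕ)
  (l : B → ℕ) (p : ℕ) (e : B → B → ℕ)

def lUp (x : ℕ) : ℕ := Wt l (blk x) 0 (len x)

def eUp (x y : ℕ) : ℕ :=
  Wt l (blk x) 1 (mis x y - 1) + e (blk x (mis x y)) (blk y (mis x y))

end

namespace Img

variable {a : B} {len : ℕ → ℕ} {blk : ℕ → ℕ → B} {mis : ℕ → ℕ → ℕ}
  {v : ℕ → ℕ} {w : ℕ → B} {c : ℕ → ℕ}

lemma Wt_c (h : Img a len blk mis v w c) (l : B → ℕ) (α s d : ℕ) (hd : c α + d = c (α + s)) :
    Wt l w (c α) d = Wt (lUp len blk l) v α s := by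
  induction s generalizing d with
  | zero => rw [show d = 0 by simpa using hd, Wt_zero, Wt_zero]
  | succ s ih =>
    have h1 := h.succ (α + s)
    have h2 := h.mono (show α ≤ α + s by omega)
    rw [← add_assoc] at hd
    rw [show d = (c (α + s) - c α) + len (v (α + s)) by omega, Wt_add, Wt_succ,
      ih _ (by omega), show c α + (c (α + s) - c α) = c (α + s) by omega]
    congr 1
    exact Wt_congr l fun t ht => by rw [h.val _ t ht.le, zero_add]

theorem ascent (h : Img a len blk mis v w c) (l : B → ℕ) (p : ℕ) (e : B → B → ℕ)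
    {α r' n' : ℕ} (hm : MaxRun v α r' n') :
    ∃ i r n, MaxRun w i r n ∧ c α + r = c (α + r') ∧ i ≤ c α ∧ c (α + n') < i + n ∧
      Val l p e w i r n = Val (lUp len blk l) (p + l a) (eUp blk mis l e) v α r' n' ∧
      Wt l w i r = Wt (lUp len blk l) v α r' := by
  obtain ⟨hr, hv, hR, hL⟩ := hm
  obtain ⟨r, hrr⟩ := Nat.exists_eq_add_of_le (h.mono (show α ≤ α + r' by omega))
  have hr0 : 0 < r := by
    have := h.strictMono (show α < α + r' by omega); omega
  have hcs := h.shift_c hv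
  have hw := h.shift_w hv
  have hmo := h.mono (show α ≤ α + n' by omega)
  obtain ⟨m1, m2⟩ := h.mis_le _ _ hR
  have m0 := h.mis_pos hR
  set μ := mis (v (α + n')) (v (α + r' + n')) with hμ
  -- the left overhang
  obtain ⟨d, hd, hd1, hd2, hd3⟩ : ∃ d, d ≤ c α ∧
      (∀ t, t ≤ d → w (c α - t) = w (c α + r - t)) ∧
      (∀ i', c α - d = i' + 1 → w i' ≠ w (i' + r)) ∧
      Wt l w (c α - d) d + eL e w (c α - d) r = eL (eUp blk mis l e) v α r' := by
    rcases α with _ | α
    · refine ⟨0, by omega, fun t ht => ?_, fun i' hi' => ?_, ?_⟩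
      · rw [show t = 0 by omega, Nat.sub_zero, Nat.sub_zero, ← hrr, h.cut, h.cut]
      · have := h.c0; omega
      · simp [Wt_zero, eL, h.c0]
    · have hne := hL α rfl
      obtain ⟨k1, k2⟩ := h.mis_le _ _ hne
      have k0 := h.mis_pos hne
      have s1 := h.succ α
      set ν := mis (v α) (v (α + r')) with hν
      have e1 : ∀ t, t ≤ ν → w (c (α + 1) + r - t) = blk (v (α + r')) t := fun t ht => by
        rw [← hrr, show α + 1 + r' = α + r' + 1 by omega, h.lval _ t (by omega)]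
      have e2 : w (c (α + 1) - (ν - 1) - 1) = blk (v α) ν := by
        rw [← h.lval α ν k1]; congr 1; omega
      have e3 : w (c (α + 1) - (ν - 1) - 1 + r) = blk (v (α + r')) ν := by
        rw [← e1 ν le_rfl]; congr 1; omega
      refine ⟨ν - 1, by omega, fun t ht => ?_, fun i' hi' => ?_, ?_⟩
      · rw [e1 t (by omega), h.lval α t (by omega), h.mis_eq _ _ t hne (by omega)]
      · rw [show i' = c (α + 1) - (ν - 1) - 1 by omega, e2, e3]
        exact h.mis_ne _ _ hne
      · rw [eL, eL, if_neg (by omega), if_neg (by omega), e2, e3, Nat.add_sub_cancel, eUp, ← hν]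
        congr 1
        unfold Wt
        rw [← Finset.sum_range_reflect]
        refine Finset.sum_congr rfl fun t ht => ?_
        have := Finset.mem_range.1 ht
        rw [← h.lval α (1 + t) (by omega)]
        congr 2; omega
  have hrun : ∀ t, t < d + (c (α + n') - c α) + μ →
      w (c α - d + t) = w (c α - d + r + t) := by
    intro t ht
    by_cases h1 : t ≤ d
    · have := hd1 (d - t) (by omega)
      rw [show c α - d + t = c α - (d - t) by omega, this]; congr 1; omega
    · by_cases h2 : c α - d + t ≤ c (α + n')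
      · have := hw (t - d) (by omega)
        rw [show c α - d + t = c α + (t - d) by omega, this]; congr 1; omega
      · obtain ⟨t', ht'⟩ : ∃ t', c α - d + t = c (α + n') + t' :=
          ⟨c α - d + t - c (α + n'), by omega⟩
        rw [ht', show c α - d + r + t = c (α + r' + n') + t' by omega, h.val _ t' (by omega),
          h.val _ t' (by omega), h.mis_eq _ _ t' hR (by omega)]
  have e4 : w (c α - d + (d + (c (α + n') - c α) + μ)) = blk (v (α + n')) μ := by
    rw [← h.val _ μ m1]; congr 1; omega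
  have e5 : w (c α - d + r + (d + (c (α + n') - c α) + μ)) = blk (v (α + r' + n')) μ := by
    rw [← h.val _ μ m2]; congr 1; omega
  refine ⟨c α - d, r, d + (c (α + n') - c α) + μ, ⟨hr0, hrun, ?_, hd2⟩, hrr.symm, by omega,
    by omega, ?_, ?_⟩
  · rw [e4, e5]; exact h.mis_ne _ _ hR
  · unfold Val
    rw [e4, e5, Wt_add, Wt_add, show c α - d + d = c α by omega,
      h.Wt_c l α n' _ (by omega), ← hd3, eUp, ← hμ,
      show c α - d + (d + (c (α + n') - c α)) = c (α + n') by omega]
    have : Wt l w (c (α + n')) μ = l a + Wt l (blk (v (α + n'))) 1 (μ - 1) := by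
      rw [show μ = 1 + (μ - 1) by omega, Wt_add, Wt_succ, Wt_zero, add_zero, h.cut, zero_add,
        Nat.add_sub_cancel_left]
      congr 1
      exact Wt_congr l fun t ht => by rw [add_assoc, h.val _ _ (by omega)]
    rw [this]; ring
  · have e6 := Wt_add l w (c α - d) d r
    have e7 := Wt_add l w (c α - d) r d
    have e8 : Wt l w (c α - d) d = Wt l w (c α - d + r) d :=
      Wt_congr l fun t ht => hrun t (by omega)
    rw [show c α - d + d = c α by omega, h.Wt_c l α r' r hrr.symm] at e6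
    rw [add_comm r d] at e7
    omega

theorem descent (h : Img a len blk mis v w c) (l : B → ℕ) (p : ℕ) (e : B → B → ℕ)
    {i r n t : ℕ} (hm : MaxRun w i r n) (ht : t < n) (ha : w (i + t) = a) :
    ∃ α r' n', MaxRun v α r' n' ∧ n' < n ∧
      Val l p e w i r n = Val (lUp len blk l) (p + l a) (eUp blk mis l e) v α r' n' ∧
      Wt l w i r = Wt (lUp len blk l) v α r' := by
  obtain ⟨γ, hγ⟩ := h.eq_cut ha
  rw [hm.2.1 t ht] at ha
  obtain ⟨γ', hγ'⟩ := h.eq_cut ha
  have hr := hm.1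
  have hlt : γ < γ' := h.lt_of_lt (by omega)
  obtain ⟨r', rfl⟩ := Nat.exists_eq_add_of_le hlt.le
  obtain ⟨α, n', h1, h2, hm'⟩ := exists_maxRun v (j := γ) (r := r') (m := 0) (by omega)
    (fun t ht => absurd ht (by omega)) (by
      by_contra hc
      push Not at hc
      have := h.shift_w (s := n - t) (fun t _ => hc t) (n - t) (h.add_le _ _)
      refine hm.2.2.1 ?_
      rw [show i + n = c γ + (n - t) by omega, this]; congr 1; omega)
  obtain ⟨i2, r2, n2, hm2, e1, e2, e3, e4, e5⟩ := h.ascent l p e hm'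
  obtain ⟨s, rfl⟩ := Nat.exists_eq_add_of_le h1
  have hcs := h.shift_c (s := s) fun t ht => hm'.2.1 t (by omega)
  rw [show α + r' + s = α + s + r' by omega] at hcs
  have : r2 = r := by omega
  subst this
  have k1 := h.mono h1
  have k2 := h.mono (show α + s ≤ α + n' by omega)
  obtain ⟨rfl, rfl⟩ := hm.unique hm2 (x := i + t) (by omega) (by omega) (by omega) (by omega)
  have := h.add_le α n'
  exact ⟨α, r', n', hm', by omega, e4, e5⟩

lemma evPer (h : Img a len blk mis v w c) {j r : ℕ} (hr : 0 < r)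
    (H : ∀ t, w (j + t) = w (j + r + t)) :
    ∃ γ r', 0 < r' ∧ c γ + r = c (γ + r') ∧ ∀ t, v (γ + t) = v (γ + r' + t) := by
  have h1 := h.add_le 0 j
  rw [h.c0, zero_add] at h1
  obtain ⟨t, ht⟩ := Nat.exists_eq_add_of_le h1
  have h2 := H t
  rw [← ht, h.cut] at h2
  obtain ⟨γ', hγ'⟩ := h.eq_cut h2.symm
  have hlt : j < γ' := h.lt_of_lt (by omega)
  obtain ⟨r', rfl⟩ := Nat.exists_eq_add_of_le hlt.le
  refine ⟨j, r', by omega, by omega, fun s => ?_⟩
  refine h.shift_v (s := s + 1) (fun x _ => ?_) s (by omega)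
  rw [ht, ← hγ', add_assoc, add_assoc]; exact H _

end Img

end Pool.Agent.Lib.MP_9d05bc_co
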