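import Pool.Agent.Lib.MP_9d05bc_co.Rich
import Pool.Agent.Lib.MP_9d05bc_co.Runs

/-!
The fixed point `u_N` as an image of itself, its local structure, richness and aperiodicity.
-/

namespace Pool.Agent.Lib.MP_9d05bc_co

def sg (N x : ℕ) : ℕ := min (x + 1) (N - 1)

def lenP (N x : ℕ) : ℕ := if x + 1 < N then 2 else 3

def blkP (N x r : ℕ) : ℕ := if r = 0 ∨ r = lenP N x then 0 else sg N x

def misP (N x y : ℕ) : ℕ := if sg N x = sg N y then 2 else 1

def WW (N k : ℕ) : List ℕ := (fun w : List ℕ => w.flatMap (phi N))^[k] [0]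

def cP (N n : ℕ) : ℕ := ((factor (uSeq N) 0 n).flatMap (phi N)).length

lemma WW_succ (N k : ℕ) : WW N (k + 1) = (WW N k).flatMap (phi N) :=
  Function.iterate_succ_apply' _ _ _

lemma phi_length (N x : ℕ) : (phi N x).length = lenP N x := by
  unfold phi lenP; split_ifs <;> rfl

lemma flat_prefix (N : ℕ) {s t : List ℕ} (h : s <+: t) :
    s.flatMap (phi N) <+: t.flatMap (phi N) := by
  obtain ⟨q, rfl⟩ := h
  rw [List.flatMap_append]; exact List.prefix_append _ _

lemma WW_prefix_succ (N k : ℕ) : WW N k <+: WW N (k + 1) := by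
  induction k with
  | zero =>
    rw [WW_succ]
    simp only [WW, Function.iterate_zero, id_eq, List.flatMap_cons, List.flatMap_nil,
      List.append_nil, phi]
    split_ifs <;> simp
  | succ k ih => rw [WW_succ, WW_succ N (k + 1)]; exact flat_prefix N ih

lemma WW_prefix (N : ℕ) {k l : ℕ} (h : k ≤ l) : WW N k <+: WW N l := by
  induction h with
  | refl => exact List.prefix_rfl
  | step _ ih => exact ih.trans (WW_prefix_succ N _)

lemma flat_length (N : ℕ) (s : List ℕ) : 2 * s.length ≤ (s.flatMap (phi N)).length := by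
  induction s with
  | nil => simp
  | cons x s ih =>
    rw [List.flatMap_cons, List.length_append, phi_length, List.length_cons]
    unfold lenP; split_ifs <;> omega

lemma WW_length (N k : ℕ) : k + 1 ≤ (WW N k).length := by
  induction k with
  | zero => simp [WW]
  | succ k ih => have := flat_length N (WW N k); rw [WW_succ]; omega

lemma uSeq_eq (N k x : ℕ) (hx : x < (WW N k).length) : uSeq N x = (WW N k)[x] := by
  have h1 : x < (WW N (x + 1)).length := by have := WW_length N (x + 1); omega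
  have e : uSeq N x = (WW N (x + 1))[x] := by
    rw [← List.getD_eq_getElem _ 0 h1]; rfl
  rw [e]
  rcases le_total k (x + 1) with h | h
  · exact ((WW_prefix N h).getElem hx).symm
  · exact (WW_prefix N h).getElem h1

lemma prefix_WW_eq (N k : ℕ) {s : List ℕ} (h : s <+: WW N k) :
    s = factor (uSeq N) 0 s.length := by
  apply List.ext_getElem (by simp [factor_length])
  intro x h1 h2
  rw [factor_getElem, zero_add, uSeq_eq N k x (h1.trans_le h.length_le), h.getElem h1]

lemma flat_factor (N n : ℕ) :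
    (factor (uSeq N) 0 n).flatMap (phi N) = factor (uSeq N) 0 (cP N n) := by
  have h1 : factor (uSeq N) 0 n <+: WW N n := by
    have := WW_length N n
    rw [prefix_WW_eq N n List.prefix_rfl, show (WW N n).length = n + ((WW N n).length - n) by omega,
      factor_add]
    exact List.prefix_append _ _
  have h2 := flat_prefix N h1
  rw [← WW_succ] at h2
  exact prefix_WW_eq N _ h2

lemma factor_succ {B : Type} (w : ℕ → B) (j m : ℕ) :
    factor w j (m + 1) = factor w j m ++ [w (j + m)] := by
  rw [factor_add]; simp [factor]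

lemma cP_succ (N n : ℕ) : cP N (n + 1) = cP N n + lenP N (uSeq N n) := by
  unfold cP
  rw [factor_succ, List.flatMap_append, List.length_append]
  simp [phi_length]

lemma factor_cP (N n : ℕ) : factor (uSeq N) (cP N n) (lenP N (uSeq N n)) = phi N (uSeq N n) := by
  have h := flat_factor N (n + 1)
  rw [cP_succ, factor_succ, factor_add, List.flatMap_append, flat_factor] at h
  simpa using (List.append_cancel_left h).symm

lemma uSeq_lt (N : ℕ) (hN : 0 < N) (x : ℕ) : uSeq N x < N := by
  have h : ∀ k, ∀ y ∈ WW N k, y < N := by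
    intro k
    induction k with
    | zero => simpa [WW] using hN
    | succ k ih =>
      intro y hy
      rw [WW_succ, List.mem_flatMap] at hy
      obtain ⟨z, hz, hy⟩ := hy
      have := ih z hz
      unfold phi at hy
      split_ifs at hy <;> simp at hy <;> omega
  have h1 : x < (WW N x).length := by have := WW_length N x; omega
  rw [uSeq_eq N x x h1]
  exact h _ _ (List.getElem_mem h1)

lemma uSeq_val (N : ℕ) (hN : 0 < N) (n r : ℕ) (hr : r < lenP N (uSeq N n)) :
    uSeq N (cP N n + r) = blkP N (uSeq N n) r := by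
  have h := factor_cP N n
  have h1 : r < (factor (uSeq N) (cP N n) (lenP N (uSeq N n))).length := by
    rwa [factor_length]
  rw [← factor_getElem _ _ _ _ h1]
  simp only [h]
  have := uSeq_lt N hN n
  unfold lenP at hr
  unfold phi blkP lenP sg
  split_ifs at hr ⊢ <;> interval_cases r <;> simp_all <;> omega

theorem imgP (N : ℕ) (hN : 3 ≤ N) :
    Img 0 (lenP N) (blkP N) (misP N) (uSeq N) (uSeq N) (cP N) where
  c0 := rfl
  succ := cP_succ N
  val n r hr := by
    rcases Nat.eq_or_lt_of_le hr with rfl | h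
    · have := uSeq_val N (by omega) (n + 1) 0 (by unfold lenP; split_ifs <;> omega)
      rw [← cP_succ]
      simpa [blkP] using this
    · exact uSeq_val N (by omega) n r h
  pos n := by unfold lenP; split_ifs <;> omega
  mark n r hr := by unfold blkP sg; split_ifs <;> omega
  pal n r hr := by unfold blkP; split_ifs <;> omega
  mis_ne n m h := by
    have := uSeq_lt N (by omega) n
    have := uSeq_lt N (by omega) m
    unfold blkP misP lenP sg; split_ifs <;> simp_all <;> omega
  mis_eq n m r h hr := by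
    unfold misP at hr
    unfold blkP lenP; split_ifs at hr ⊢ <;> omega
  mis_le n m h := by unfold misP lenP; split_ifs <;> omega

lemma cP_two (N n m : ℕ) : cP N n + 2 * m ≤ cP N (n + m) := by
  induction m with
  | zero => simp
  | succ m ih =>
    have := cP_succ N (n + m)
    rw [← add_assoc n]
    unfold lenP at this; split_ifs at this <;> omega

lemma all0 (P : ℕ → Prop) : (∀ r, 0 < r → r < 0 → P r) ↔ True :=
  ⟨fun _ => trivial, fun _ _ _ h => absurd h (by omega)⟩

lemma all1 (P : ℕ → Prop) : (∀ r, 0 < r → r < 1 → P r) ↔ True :=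
  ⟨fun _ => trivial, fun _ _ _ h => absurd h (by omega)⟩

lemma all2 (P : ℕ → Prop) : (∀ r, 0 < r → r < 2 → P r) ↔ P 1 :=
  ⟨fun h => h 1 (by omega) (by omega), fun h r _ _ => by rwa [show r = 1 by omega]⟩

lemma all3 (P : ℕ → Prop) : (∀ r, 0 < r → r < 3 → P r) ↔ P 1 ∧ P 2 :=
  ⟨fun h => ⟨h 1 (by omega) (by omega), h 2 (by omega) (by omega)⟩, fun h r _ _ => by
    rcases (show r = 1 ∨ r = 2 by omega) with rfl | rfl
    · exact h.1
    · exact h.2⟩

lemma D2_aux (S : ℕ → Prop) (lx ly sx sy : ℕ) (hx : lx = 2 ∨ lx = 3) (hy : ly = 2 ∨ ly = 3)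
    (hxy : lx = 3 → ly = 3 → sx = sy) (o o' m : ℕ) (h1 : o + m ≤ lx) (h2 : o' + m ≤ ly)
    (h3 : Occ (fun r => if r = 0 ∨ r = lx then 0 else sx)
      (fun r => if r = 0 ∨ r = lx then 0 else sx) S o m o)
    (h5 : ∀ k, k < o → ¬ Occ (fun r => if r = 0 ∨ r = lx then 0 else sx)
      (fun r => if r = 0 ∨ r = lx then 0 else sx) S o m k)
    (h6 : Occ (fun r => if r = 0 ∨ r = lx then 0 else sx)
      (fun r => if r = 0 ∨ r = ly then 0 else sy) S o m o')
    (h7 : ∀ k, k < o' → ¬ Occ (fun r => if r = 0 ∨ r = lx then 0 else sx)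
      (fun r => if r = 0 ∨ r = ly then 0 else sy) S o m k) :
    o = o' ∧ ∀ t, t < o + m →
      (if t = 0 ∨ t = lx then 0 else sx) = if t = 0 ∨ t = ly then 0 else sy := by
  have a0 := h5 0
  have a1 := h5 1
  have b0 := h7 0
  have b1 := h7 1
  have hm : m ≤ 3 := by omega
  have ho : o ≤ 3 := by omega
  have ho' : o' ≤ 3 := by omega
  clear h5 h7
  unfold Occ at *
  rcases hx with rfl | rfl <;> rcases hy with rfl | rfl <;> interval_cases m <;>
    interval_cases o <;> interval_cases o' <;>
    first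
    | omega
    | (simp only [all0, all1, all2, all3] at h3 h6 a0 a1 b0 b1
       refine ⟨by simp_all <;> grind, fun t ht => ?_⟩
       interval_cases t <;> simp_all)

/-- All complete returns to quasi-palindromes in `u_N` have palindromic interior. -/
theorem conf_u (N : ℕ) (hN : 3 ≤ N) (S : ℕ → Prop) (m i j : ℕ) (hc : Conf (uSeq N) S m i j) :
    QSym (uSeq N) i (j + m) := by
  induction hd : j + m - i using Nat.strong_induction_on generalizing S m i j with
  | _ d ih =>
    refine (imgP N hN).conf_step S ?_ ?_ hc fun S' m' i' j' hc' h1 h2 =>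
      ih (j' + m' - i') ?_ S' m' i' j' hc' rfl
    · intro n o o' m _ _ x y hx hy hxy
      unfold blkP
      rw [if_neg (by omega), if_neg (by omega)]
    · intro n n' o o' m h1 h2 h3 _ h5 h6 h7
      refine D2_aux S _ _ _ _ ?_ ?_ ?_ o o' m h1 h2 h3 h5 h6 h7
      · unfold lenP; split_ifs <;> omega
      · unfold lenP; split_ifs <;> omega
      · unfold lenP sg; split_ifs <;> omega
    · have h3 := hc'.1
      have := cP_two N (i' + 1) (j' + m' - i' - 1)
      rw [show i' + 1 + (j' + m' - i' - 1) = j' + m' by omega] at this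
      omega

theorem aper_u (N : ℕ) (hN : 3 ≤ N) (r : ℕ) (hr : 0 < r) (j : ℕ) :
    ∃ t, uSeq N (j + t) ≠ uSeq N (j + r + t) := by
  induction r using Nat.strong_induction_on generalizing j with
  | _ r ih =>
    by_contra hc
    push Not at hc
    obtain ⟨γ, r', h1, h2, h3⟩ := (imgP N hN).evPer hr hc
    have := cP_two N γ r'
    obtain ⟨t, ht⟩ := ih r' (by omega) h1 γ
    exact ht (h3 t)

/-! ### Local structure -/

lemma u_zero (N : ℕ) (hN : 3 ≤ N) : uSeq N 0 = 0 := (imgP N hN).cut 0

lemma u_L1 (N : ℕ) (hN : 3 ≤ N) (x : ℕ) (h : uSeq N x = 0) : uSeq N (x + 1) ≠ 0 := by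
  obtain ⟨n, rfl⟩ := (imgP N hN).eq_cut h
  have := cP_two N n 1
  exact (imgP N hN).ne_of_between (n := n) (by omega) (by omega)

lemma u_L2 (N : ℕ) (hN : 3 ≤ N) (x : ℕ) (h : uSeq N x ≠ 0) (h' : uSeq N (x + 1) ≠ 0) :
    uSeq N x = N - 1 ∧ uSeq N (x + 1) = N - 1 ∧ uSeq N (x + 2) = 0 ∧ uSeq N (x - 1) = 0 := by
  have I := imgP N hN
  obtain ⟨n, h1, h2⟩ := I.locate x
  have s := I.succ n
  have c1 := I.cut n
  have c2 := I.cut (n + 1)
  have e1 : x ≠ cP N n := by rintro rfl; exact h c1
  have e2 : x + 1 ≠ cP N (n + 1) := fun e => h' (e ▸ c2)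
  have hl : lenP N (uSeq N n) = 3 ∧ sg N (uSeq N n) = N - 1 := by
    unfold lenP at s ⊢; unfold sg; split_ifs at s ⊢ <;> omega
  have e3 : x = cP N n + 1 := by omega
  subst e3
  refine ⟨?_, ?_, ?_, c1⟩
  · rw [I.val n 1 (by omega), blkP, hl.1, hl.2]; simp
  · rw [add_assoc, I.val n 2 (by omega), blkP, hl.1, hl.2]; simp
  · rw [← c2]; congr 1; omega

lemma u_L3 (N : ℕ) (hN : 3 ≤ N) (x : ℕ) (h : uSeq N (x + 1) = 0) :
    (uSeq N x = 1 ∧ 2 ≤ uSeq N (x + 2)) ∨ (2 ≤ uSeq N x ∧ uSeq N (x + 2) = 1) ∨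
      (uSeq N x = N - 1 ∧ uSeq N (x + 2) = N - 1) := by
  have I := imgP N hN
  obtain ⟨n, hn⟩ := I.eq_cut h
  obtain ⟨n, rfl⟩ : ∃ m, n = m + 1 := by
    rcases n with _ | n
    · have := I.c0; omega
    · exact ⟨n, rfl⟩
  have e1 := I.lval n 1 (by unfold lenP; split_ifs <;> omega)
  have e2 := I.val (n + 1) 1 (by unfold lenP; split_ifs <;> omega)
  rw [← hn] at e1 e2
  have e3 : ∀ y, blkP N y 1 = sg N y := fun y => by
    unfold blkP lenP; rw [if_neg (by split_ifs <;> simp)]
  rw [Nat.add_sub_cancel, e3] at e1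
  rw [e3] at e2
  rw [e1, e2]
  have l1 := u_L1 N hN n
  have l2 := u_L2 N hN n
  unfold sg
  omega

end Pool.Agent.Lib.MP_9d05bc_co
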