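import Pool.Agent.Lib.MP_9d05bc_co.Img

/-!
Complete returns to quasi-palindromes, and how they pass through a marker morphism.
-/

namespace Pool.Agent.Lib.MP_9d05bc_co

variable {B : Type}

/-- The interior of `w[i..j]` is a palindrome. -/
def QSym (w : ℕ → B) (i j : ℕ) : Prop :=
  ∀ x y, i < x → i < y → x + y = i + j → w x = w y

/-- `g[k..k+m]` has both ends in `S` and the same interior as `f[i..i+m]`. -/
def Occ (f g : ℕ → B) (S : B → Prop) (i m k : ℕ) : Prop :=
  S (g k) ∧ S (g (k + m)) ∧ ∀ r, 0 < r → r < m → g (k + r) = f (i + r)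

/-- Two consecutive occurrences of a quasi-palindrome. -/
def Conf (w : ℕ → B) (S : B → Prop) (m i j : ℕ) : Prop :=
  i < j ∧ Occ w w S i m i ∧ QSym w i (i + m) ∧ Occ w w S i m j ∧
    ∀ k, i < k → k < j → ¬ Occ w w S i m k

namespace Img

variable {a : B} {len : ℕ → ℕ} {blk : ℕ → ℕ → B} {mis : ℕ → ℕ → ℕ}
  {v : ℕ → ℕ} {w : ℕ → B} {c : ℕ → ℕ}

lemma ext_sym (h : Img a len blk mis v w c) {α β i J e : ℕ} (hq : QSym v α β)
    (h1 : i + e = c (α + 1)) (h2 : c β + e = J) (h3 : e ≤ len (v α)) (h4 : e ≤ len (v β))
    (h5 : ∀ r, r < e → blk (v α) r = blk (v β) r) : QSym w i J := by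
  have hs := h.sym_w (α := α + 1) (β := β) fun x y hx hy hxy => hq x y hx hy (by omega)
  have key : ∀ x y, i < x → x < c (α + 1) → x + y = i + J → w x = w y := by
    intro x y hx hx' hxy
    have e1 := h.lval α (c (α + 1) - x) (by omega)
    have e2 := h.val β (c (α + 1) - x) (by omega)
    rw [show c (α + 1) - (c (α + 1) - x) = x by omega] at e1
    rw [show c β + (c (α + 1) - x) = y by omega] at e2
    rw [e1, e2, h5 _ (by omega)]
  intro x y hx hy hxy
  by_cases hx' : x < c (α + 1)
  · exact key x y hx hx' hxy
  · by_cases hy' : y < c (α + 1)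
    · exact (key y x hy hy' (by omega)).symm
    · exact hs x y (by omega) (by omega) (by omega)

lemma le_len_right (h : Img a len blk mis v w c) {n e : ℕ}
    (H : ∀ r, 0 < r → r < e → w (c n + r) ≠ a) : e ≤ len (v n) := by
  by_contra hc
  have := H (len (v n)) (h.pos n) (by omega)
  rw [← h.succ] at this
  exact this (h.cut _)

lemma le_len_left (h : Img a len blk mis v w c) {n e : ℕ}
    (H : ∀ r, 0 < r → r < e → w (c (n + 1) - r) ≠ a) : e ≤ len (v n) := by
  by_contra hc
  have := H (len (v n)) (h.pos n) (by omega)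
  rw [h.succ, Nat.add_sub_cancel] at this
  exact this (h.cut _)

theorem conf_step (h : Img a len blk mis v w c) (S : B → Prop)
    (D1 : ∀ n o o' m, o' + m ≤ len (v n) → Conf (blk (v n)) S m o o' →
      QSym (blk (v n)) o (o' + m))
    (D2 : ∀ n n' o o' m, o + m ≤ len (v n) → o' + m ≤ len (v n') →
      Occ (blk (v n)) (blk (v n)) S o m o → QSym (blk (v n)) o (o + m) →
      (∀ k, k < o → ¬ Occ (blk (v n)) (blk (v n)) S o m k) →
      Occ (blk (v n)) (blk (v n')) S o m o' →
      (∀ k, k < o' → ¬ Occ (blk (v n)) (blk (v n')) S o m k) →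
      o = o' ∧ ∀ t, t < o + m → blk (v n) t = blk (v n') t)
    {m i j : ℕ} (hc : Conf w S m i j)
    (IH : ∀ S' m' i' j', Conf v S' m' i' j' → i < c (i' + 1) → c (j' + m') < j + m →
      QSym v i' (j' + m')) : QSym w i (j + m) := by
  obtain ⟨hij, hoi, hsym, hoj, hno⟩ := hc
  obtain ⟨α, hα1, hα2⟩ := h.locate i
  have sα := h.succ α
  by_cases hcase : c (α + 1) < i + m
  · -- a cut inside the pattern
    obtain ⟨β, hβ1, hβ2⟩ := h.locate' (i + m) (by omega)
    have sβ := h.succ β
    have hαβ : α + 1 ≤ β := by
      have := h.lt_of_lt (n := α + 1) (m := β + 1) (by omega); omega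
    have hcc : c (α + 1) ≤ c β := h.mono hαβ
    have hsum : c (α + 1) + c β = i + (i + m) := by
      have e1 := hsym (c (α + 1)) (i + (i + m) - c (α + 1)) (by omega) (by omega) (by omega)
      have e2 := hsym (c β) (i + (i + m) - c β) (by omega) (by omega) (by omega)
      rw [h.cut] at e1 e2
      obtain ⟨γ, hγ⟩ := h.eq_cut e1.symm
      obtain ⟨δ, hδ⟩ := h.eq_cut e2.symm
      have h1 : γ ≤ β := by
        have := h.lt_of_lt (n := γ) (m := β + 1) (by omega); omega
      have h2 : α + 1 ≤ δ := h.lt_of_lt (n := α) (m := δ) (by omega)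
      have := h.mono h1
      have := h.mono h2
      omega
    obtain ⟨e, he⟩ : ∃ e, i + e = c (α + 1) := ⟨c (α + 1) - i, by omega⟩
    obtain ⟨s, rfl⟩ := Nat.exists_eq_add_of_le hαβ
    set β := α + 1 + s with hβ
    have hna : ∀ r, 0 < r → r < e → w (c β + r) ≠ a := fun r h1 h2 =>
      h.ne_of_between (n := β) (by omega) (by omega)
    let S' : ℕ → Prop := fun x => e ≤ len x ∧ S (blk x e) ∧ ∀ r, r < e → blk x r = blk (v β) r
    have hA : ∀ k, Occ w w S i m k → ∃ k', k + e = c (k' + 1) ∧ c (k' + (s + 1)) + e = k + m ∧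
        Occ v v S' α (s + 1) k' := by
      rintro k ⟨o1, o2, o3⟩
      have e1 := o3 e (by omega) (by omega)
      rw [he, h.cut] at e1
      obtain ⟨γ, hγ⟩ := h.eq_cut e1
      obtain ⟨k', rfl⟩ : ∃ k', γ = k' + 1 := by
        rcases γ with _ | γ
        · have := h.c0; omega
        · exact ⟨γ, rfl⟩
      have hv := h.shift_v (α := α + 1) (β := k' + 1) (s := s) fun r hr => by
        have := o3 (e + r) (by omega) (by rw [← hβ] at hr; omega)
        rw [← he, ← hγ, add_assoc, add_assoc, this]
      have hcs := h.shift_c hv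
      rw [← hβ, show k' + 1 + s = k' + (s + 1) by omega] at hcs
      have hR : ∀ r, r < e → w (c (k' + (s + 1)) + r) = w (c β + r) := by
        intro r hr
        have := o3 (m - e + r) (by omega) (by omega)
        rw [show c (k' + (s + 1)) + r = k + (m - e + r) by omega, this]
        congr 1; omega
      have hL : ∀ r, r < e → w (c (k' + 1) - r) = w (c β + r) := by
        intro r hr
        have := o3 (e - r) (by omega) (by omega)
        rw [show c (k' + 1) - r = k + (e - r) by omega, this]
        exact hsym _ _ (by omega) (by omega) (by omega)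
      have hlR : e ≤ len (v (k' + (s + 1))) := h.le_len_right fun r h1 h2 => by
        rw [hR r h2]; exact hna r h1 h2
      have hlL : e ≤ len (v k') := h.le_len_left fun r h1 h2 => by
        rw [hL r h2]; exact hna r h1 h2
      refine ⟨k', hγ, by omega, ⟨hlL, ?_, fun r hr => ?_⟩, ⟨hlR, ?_, fun r hr => ?_⟩,
        fun r h1 h2 => ?_⟩
      · rw [← h.lval k' e hlL, show c (k' + 1) - e = k by omega]; exact o1
      · rw [← h.lval k' r (by omega), hL r hr, h.val β r (by omega)]
      · rw [← h.val _ e hlR, show c (k' + (s + 1)) + e = k + m by omega]; exact o2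
      · rw [← h.val _ r (by omega), hR r hr, h.val β r (by omega)]
      · have := hv (r - 1) (by omega)
        rw [show k' + r = k' + 1 + (r - 1) by omega, ← this]
        congr 1; omega
    have hB : ∀ k', Occ v v S' α (s + 1) k' → e ≤ c (k' + 1) ∧ Occ w w S i m (c (k' + 1) - e) := by
      rintro k' ⟨⟨l1, l2, l3⟩, ⟨r1, r2, r3⟩, o3⟩
      have hv : ∀ t, t < s → v (α + 1 + t) = v (k' + 1 + t) := fun t ht => by
        have := o3 (t + 1) (by omega) (by omega)
        rw [show k' + 1 + t = k' + (t + 1) by omega, this]; congr 1; omega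
      have hcs := h.shift_c hv
      rw [← hβ, show k' + 1 + s = k' + (s + 1) by omega] at hcs
      have sk := h.succ k'
      refine ⟨by omega, ?_, ?_, fun r h1 h2 => ?_⟩
      · rw [h.lval k' e l1]; exact l2
      · rw [show c (k' + 1) - e + m = c (k' + (s + 1)) + e by omega, h.val _ e r1]; exact r2
      · by_cases hr1 : r ≤ e
        · rw [show c (k' + 1) - e + r = c (k' + 1) - (e - r) by omega, h.lval k' _ (by omega),
            l3 _ (by omega), ← h.val β _ (by omega)]
          exact hsym _ _ (by omega) (by omega) (by omega)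
        · by_cases hr2 : i + r ≤ c β
          · have := h.shift_w hv (r - e) (by rw [← hβ]; omega)
            rw [show c (k' + 1) - e + r = c (k' + 1) + (r - e) by omega, ← this]
            congr 1; omega
          · rw [show c (k' + 1) - e + r = c (k' + (s + 1)) + (i + r - c β) by omega,
              h.val _ _ (by omega), r3 _ (by omega), ← h.val β _ (by omega)]
            congr 1; omega
    obtain ⟨i', hi1, hi2, hi3⟩ := hA i hoi
    have : i' = α := by
      have := h.strictMono.injective (hi1.symm.trans he); omega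
    subst this
    obtain ⟨j', hj1, hj2, hj3⟩ := hA j hoj
    have hlt : i' < j' := by
      have := h.lt_of_lt (n := i' + 1) (m := j' + 1) (by omega); omega
    have hq := IH S' (s + 1) i' j' ⟨hlt, hi3, fun x y hx hy hxy =>
      h.sym_v (α := i' + 1) (β := β) (fun x y hx hy hxy => hsym x y (by omega) (by omega)
        (by omega)) x y hx hy (by omega), hj3, fun k' h1 h2 ho => ?_⟩ (by omega) (by omega)
    · exact h.ext_sym hq he hj2 hi3.1.1 hj3.2.1.1 fun r hr => by
        rw [hi3.1.2.2 r hr, hj3.2.1.2.2 r hr]
    · obtain ⟨b1, b2⟩ := hB k' ho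
      have := h.strictMono (show i' + 1 < k' + 1 by omega)
      have := h.strictMono (show k' + 1 < j' + 1 by omega)
      exact hno _ (by omega) (by omega) b2
  · -- no cut inside the pattern
    obtain ⟨β, hβ1, hβ2⟩ := h.locate' (j + m) (by omega)
    have sβ := h.succ β
    have hβ3 : c β ≤ j := by
      by_contra hlt
      have := hoj.2.2 (c β - j) (by omega) (by omega)
      rw [show j + (c β - j) = c β by omega, h.cut] at this
      exact h.ne_of_between (n := α) (by omega) (by omega) this.symm
    have hαβ : α ≤ β := by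
      have := h.lt_of_lt (n := α) (m := β + 1) (by omega); omega
    obtain ⟨o, rfl⟩ := Nat.exists_eq_add_of_le hα1
    obtain ⟨o', rfl⟩ := Nat.exists_eq_add_of_le hβ3
    have hT : ∀ n k, k + m ≤ len (v n) →
        (Occ w w S (c α + o) m (c n + k) ↔ Occ (blk (v α)) (blk (v n)) S o m k) := by
      intro n k hk
      unfold Occ
      rw [add_assoc, h.val n k (by omega), h.val n (k + m) hk]
      refine and_congr_right fun _ => and_congr_right fun _ =>
        forall_congr' fun r => forall_congr' fun _ => forall_congr' fun _ => ?_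
      rw [add_assoc, add_assoc, h.val n _ (by omega), h.val α _ (by omega)]
    have hsym' : QSym (blk (v α)) o (o + m) := fun x y hx hy hxy => by
      rw [← h.val α x (by omega), ← h.val α y (by omega)]
      exact hsym _ _ (by omega) (by omega) (by omega)
    rcases Nat.eq_or_lt_of_le hαβ with rfl | hlt
    · have := D1 α o o' m (by omega) ⟨by omega, (hT α o (by omega)).1 hoi, hsym',
        (hT α o' (by omega)).1 hoj, fun k h1 h2 ho =>
          hno (c α + k) (by omega) (by omega) ((hT α k (by omega)).2 ho)⟩
      intro x y hx hy hxy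
      rw [h.val' α x (by omega) (by omega), h.val' α y (by omega) (by omega)]
      exact this _ _ (by omega) (by omega) (by omega)
    · have hcc : c (α + 1) ≤ c β := h.mono hlt
      let S' : ℕ → Prop := fun x => ∃ k, k + m ≤ len x ∧ Occ (blk (v α)) (blk x) S o m k
      have s1 : S' (v α) := ⟨o, by omega, (hT α o (by omega)).1 hoi⟩
      have s2 : S' (v β) := ⟨o', by omega, (hT β o' (by omega)).1 hoj⟩
      have hq := IH S' 0 α β ⟨hlt, ⟨s1, s1, fun r _ hr => absurd hr (by omega)⟩,
        fun x y hx hy hxy => by omega, ⟨s2, s2, fun r _ hr => absurd hr (by omega)⟩,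
        fun k' h1 h2 ho => ?_⟩ (by omega) (by simpa using hβ1)
      · obtain ⟨o1, ho1⟩ : ∃ o1, o1 + m + o = len (v α) := ⟨len (v α) - m - o, by omega⟩
        have hm : ∀ r, 0 < r → r < m → blk (v α) (o1 + r) = blk (v α) (o + r) := by
          intro r h1 h2
          rw [← h.pal α (o1 + r) (by omega)]
          exact hsym' _ _ (by omega) (by omega) (by omega)
        have hU : ∀ g k, Occ (blk (v α)) g S o1 m k ↔ Occ (blk (v α)) g S o m k := by
          intro g k
          unfold Occ
          refine and_congr_right fun _ => and_congr_right fun _ =>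
            forall_congr' fun r => forall_congr' fun h1 => forall_congr' fun h2 => ?_
          rw [hm r h1 h2]
        have hM : ∀ k k2, k + m + k2 = len (v α) → Occ (blk (v α)) (blk (v α)) S o m k →
            Occ (blk (v α)) (blk (v α)) S o m k2 := by
          rintro k k2 hk ⟨o1, o2, o3⟩
          refine ⟨?_, ?_, fun r h1 h2 => ?_⟩
          · rw [← h.pal α k2 (by omega), show len (v α) - k2 = k + m by omega]; exact o2
          · rw [← h.pal α (k2 + m) (by omega), show len (v α) - (k2 + m) = k by omega]; exact o1
          · rw [← h.pal α (k2 + r) (by omega), show len (v α) - (k2 + r) = k + (m - r) by omega,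
              o3 _ (by omega) (by omega)]
            exact hsym' _ _ (by omega) (by omega) (by omega)
        obtain ⟨d1, d2⟩ := D2 α β o1 o' m (by omega) (by omega)
          ((hU _ _).2 (hM o o1 (by omega) ((hT α o (by omega)).1 hoi)))
          (fun x y hx hy hxy => by
            rw [← h.pal α x (by omega), ← h.pal α y (by omega)]
            exact hsym' _ _ (by omega) (by omega) (by omega))
          (fun k hk ho => hno (c α + (len (v α) - m - k)) (by omega) (by omega)
            ((hT α _ (by omega)).2 (hM k _ (by omega) ((hU _ _).1 ho))))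
          ((hU _ _).2 ((hT β o' (by omega)).1 hoj))
          (fun k hk ho => hno (c β + k) (by omega) (by omega)
            ((hT β k (by omega)).2 ((hU _ _).1 ho)))
        exact h.ext_sym (β := β) (e := o1 + m) hq (by omega) (by omega) (by omega) (by omega) d2
      · obtain ⟨⟨k, hk, ho⟩, -⟩ := ho
        have := h.mono (show α + 1 ≤ k' by omega)
        have := h.mono (show k' + 1 ≤ β by omega)
        have := h.succ k'
        exact hno (c k' + k) (by omega) (by omega) ((hT k' k hk).2 ho)

end Img

lemma factor_length (w : ℕ → B) (j m : ℕ) : (factor w j m).length = m := by simp [factor]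

lemma factor_getElem (w : ℕ → B) (j m k : ℕ) (hk : k < (factor w j m).length) :
    (factor w j m)[k] = w (j + k) := by simp [factor]

lemma factor_add (w : ℕ → B) (j m l : ℕ) :
    factor w j (m + l) = factor w j m ++ factor w (j + m) l := by
  simp [factor, List.range_add, add_assoc]

lemma factor_eq_iff (w : ℕ → B) (i j m : ℕ) :
    factor w i m = factor w j m ↔ ∀ k, k < m → w (i + k) = w (j + k) := by
  simp [factor]

lemma infix_factor_iff (w : ℕ → B) (j m : ℕ) (s : List B) :
    s <:+: factor w j m ↔ ∃ i l, j ≤ i ∧ i + l ≤ j + m ∧ s = factor w i l := by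
  constructor
  · rintro ⟨p, q, hpq⟩
    have hl := congrArg List.length hpq
    simp only [List.length_append, factor_length] at hl
    rw [← hl, factor_add, factor_add] at hpq
    have h1 := List.append_inj_left hpq (by simp [factor_length])
    have h2 := List.append_inj_right h1 (by simp [factor_length])
    exact ⟨j + p.length, s.length, by omega, by omega, h2⟩
  · rintro ⟨i, l, h1, h2, rfl⟩
    obtain ⟨p, rfl⟩ := Nat.exists_eq_add_of_le h1
    obtain ⟨q, rfl⟩ : ∃ q, m = p + l + q := ⟨m - p - l, by omega⟩
    rw [factor_add, factor_add]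
    exact ⟨_, _, rfl⟩

lemma palindrome_factor_iff (w : ℕ → B) (i l : ℕ) :
    (factor w i l).Palindrome ↔ ∀ x y, x + y + 1 = l → w (i + x) = w (i + y) := by
  rw [List.Palindrome.iff_reverse_eq]
  constructor
  · intro h x y hxy
    have h1 : (factor w i l).reverse[x]'(by simp [factor_length]; omega) =
        (factor w i l)[x]'(by simp [factor_length]; omega) := by simp only [h]
    rw [List.getElem_reverse, factor_getElem, factor_getElem, factor_length] at h1
    rw [← h1]; congr 2; omega
  · intro h
    apply List.ext_getElem (by simp)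
    intro k h1 h2
    rw [List.getElem_reverse, factor_getElem, factor_getElem, factor_length]
    rw [factor_length] at h2
    exact h _ _ (by omega)

/-- If complete returns to palindromes are palindromes, the sequence is rich. -/
theorem richSeq_of_conf (w : ℕ → B)
    (H : ∀ b m i j, Conf w (fun x => x = b) m i j → QSym w i (j + m)) : RichSeq w := by
  classical
  intro j m
  unfold RichWord
  rw [factor_length]
  induction m with
  | zero =>
    have : {s : List B | s <:+: factor w j 0 ∧ s.Palindrome} = {[]} := by
      ext s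
      simp only [factor, List.range_zero, List.map_nil, List.infix_nil, Set.mem_ofPred_eq,
        Set.mem_singleton_iff, and_iff_left_iff_imp]
      rintro rfl; exact List.Palindrome.nil
    rw [this]; simp
  | succ m ih =>
    have hex : ∃ t, t ≤ m ∧ (factor w (j + t) (m + 1 - t)).Palindrome :=
      ⟨m, le_rfl, (palindrome_factor_iff _ _ _).2 fun x y hxy => by congr 2; omega⟩
    obtain ⟨t, ⟨ht, hp⟩, hmin⟩ : ∃ t, (t ≤ m ∧ (factor w (j + t) (m + 1 - t)).Palindrome) ∧
        ∀ t', t' < t → ¬ (t' ≤ m ∧ (factor w (j + t') (m + 1 - t')).Palindrome) :=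
      ⟨Nat.find hex, Nat.find_spec hex, fun t' h => Nat.find_min hex h⟩
    have hp' := (palindrome_factor_iff _ _ _).1 hp
    have hset : {s : List B | s <:+: factor w j (m + 1) ∧ s.Palindrome} =
        insert (factor w (j + t) (m + 1 - t)) {s : List B | s <:+: factor w j m ∧ s.Palindrome} := by
      ext s
      simp only [Set.mem_ofPred_eq, Set.mem_insert_iff, infix_factor_iff]
      constructor
      · rintro ⟨⟨i, l, h1, h2, rfl⟩, hs⟩
        by_cases hE : i + l ≤ j + m
        · exact Or.inr ⟨⟨i, l, h1, hE, rfl⟩, hs⟩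
        · rcases Nat.eq_zero_or_pos l with rfl | hl
          · exact Or.inr ⟨⟨j, 0, le_rfl, by omega, rfl⟩, hs⟩
          · obtain ⟨t', rfl⟩ := Nat.exists_eq_add_of_le h1
            have hl' : l = m + 1 - t' := by omega
            rcases lt_trichotomy t' t with h3 | rfl | h3
            · exact absurd ⟨by omega, by rwa [← hl']⟩ (hmin t' h3)
            · exact Or.inl (by rw [hl'])
            · refine Or.inr ⟨⟨j + t, l, by omega, by omega, ?_⟩, hs⟩
              rw [factor_eq_iff]
              intro k hk
              rw [(palindrome_factor_iff _ _ _).1 hs k (l - 1 - k) (by omega),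
                hp' k (m - t - k) (by omega)]
              congr 1; omega
      · rintro (rfl | ⟨⟨i, l, h1, h2, rfl⟩, hs⟩)
        · exact ⟨⟨j + t, _, by omega, by omega, rfl⟩, hp⟩
        · exact ⟨⟨i, l, h1, by omega, rfl⟩, hs⟩
    have hfin : {s : List B | s <:+: factor w j m ∧ s.Palindrome}.Finite :=
      Set.finite_of_ncard_ne_zero (by omega)
    rw [hset, Set.ncard_insert_of_notMem _ hfin, ih]
    rintro ⟨hs, -⟩
    obtain ⟨i, l, h1, h2, h3⟩ := (infix_factor_iff _ _ _ _).1 hs
    have hl : l = m + 1 - t := by
      have := congrArg List.length h3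
      simpa [factor_length] using this.symm
    subst hl
    obtain ⟨t1, rfl⟩ := Nat.exists_eq_add_of_le h1
    obtain ⟨k, hk1, hk2, hk3⟩ : ∃ k, k < t ∧ factor w (j + t) (m + 1 - t) =
        factor w (j + k) (m + 1 - t) ∧ ∀ k', k < k' → k' < t →
          factor w (j + t) (m + 1 - t) ≠ factor w (j + k') (m + 1 - t) := by
      have hP : factor w (j + t) (m + 1 - t) = factor w (j + t1) (m + 1 - t) := h3
      refine ⟨Nat.findGreatest (fun k => factor w (j + t) (m + 1 - t) =
        factor w (j + k) (m + 1 - t)) (t - 1), ?_, ?_, fun k' h1 h2 => ?_⟩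
      · have := Nat.findGreatest_le (P := fun k => factor w (j + t) (m + 1 - t) =
          factor w (j + k) (m + 1 - t)) (t - 1)
        omega
      · exact Nat.findGreatest_spec (P := fun k => factor w (j + t) (m + 1 - t) =
          factor w (j + k) (m + 1 - t)) (m := t1) (by omega) hP
      · exact Nat.findGreatest_is_greatest h1 (by omega)
    rw [factor_eq_iff] at hk2
    have e0 : w (j + k) = w (j + t) := by simpa using (hk2 0 (by omega)).symm
    have e1 : w (j + t + (m - t)) = w (j + t) := by simpa using hp' (m - t) 0 (by omega)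
    have hq := H (w (j + t)) (m - t) (j + k) (j + t) ⟨by omega,
      ⟨e0, by rw [← hk2 _ (by omega)]; exact e1, fun _ _ _ => rfl⟩, fun x y hx hy hxy => ?_,
      ⟨rfl, e1, fun r _ hr => hk2 r (by omega)⟩, fun k' h1 h2 ho => ?_⟩
    · refine hmin k hk1 ⟨by omega, (palindrome_factor_iff _ _ _).2 fun x y hxy => ?_⟩
      rcases Nat.eq_zero_or_pos x with rfl | hx
      · rw [add_zero, e0, ← e1]; congr 1; omega
      · rcases Nat.eq_zero_or_pos y with rfl | hy
        · rw [add_zero, e0, ← e1]; congr 1; omega
        · exact hq _ _ (by omega) (by omega) (by omega)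
    · obtain ⟨x', rfl⟩ := Nat.exists_eq_add_of_le hx.le
      obtain ⟨y', rfl⟩ := Nat.exists_eq_add_of_le hy.le
      rw [← hk2 _ (by omega), ← hk2 _ (by omega)]
      exact hp' _ _ (by omega)
    · obtain ⟨k2, rfl⟩ : ∃ k2, k' = j + k2 := ⟨k' - j, by omega⟩
      refine hk3 k2 (by omega) (by omega) ((factor_eq_iff _ _ _ _).2 fun r hr => ?_)
      obtain ⟨o1, o2, o3⟩ := ho
      rcases Nat.eq_zero_or_pos r with rfl | hr0
      · simpa using o1.symm
      · by_cases hr1 : r < m - t
        · rw [o3 r hr0 hr1, hk2 r hr]
        · rw [show r = m - t by omega, e1, o2]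

end Pool.Agent.Lib.MP_9d05bc_co
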