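import Pool.Agent.Lib.MP_9d05bc_co.Checks

/-!
The five-letter sequence: rich, and all its repetitions have exponent at most `1320/641`.
-/

namespace Pool.Agent.Lib.MP_9d05bc_co

def cF : ℕ → ℕ
  | 0 => 0
  | n + 1 => cF n + lenF (uSeq 10 n)

noncomputable def w5 (x : ℕ) : Fin 5 :=
  blkF (uSeq 10 (Nat.findGreatest (fun n => cF n ≤ x) x))
    (x - cF (Nat.findGreatest (fun n => cF n ≤ x) x))

lemma u10_lt (n : ℕ) : uSeq 10 n < 10 := uSeq_lt 10 (by norm_num) n

lemma F_facts (x : ℕ) (hx : x < 10) : 0 < lenF x ∧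
    (∀ r, r ≤ lenF x → (bN x r = 3 ↔ r = 0 ∨ r = lenF x) ∧ bN x (lenF x - r) = bN x r) ∧
    ∀ y, y < 10 → x ≠ y → bN x (misF x y) ≠ bN y (misF x y) ∧
      (∀ r, r < misF x y → bN x r = bN y r) ∧ misF x y ≤ lenF x ∧ misF x y ≤ lenF y := by
  have h := chk0_true
  simp only [chk0, allLt_iff, Bool.and_eq_true, Bool.or_eq_true, decide_eq_true_eq, beq_iff_eq,
    bne_iff_ne] at h
  obtain ⟨⟨h1, h2⟩, h3⟩ := h x hx
  refine ⟨h1, fun r hr => h2 r (by omega), fun y hy hxy => ?_⟩
  rcases h3 y hy with h4 | ⟨⟨⟨h4, h5⟩, h6⟩, h7⟩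
  · exact absurd h4 hxy
  · exact ⟨h4, h5, h6, h7⟩

lemma cF_strictMono : StrictMono cF :=
  strictMono_nat_of_lt_succ fun n => by
    have := (F_facts _ (u10_lt n)).1
    simp only [cF]; omega

lemma w5_val (n r : ℕ) (hr : r < lenF (uSeq 10 n)) : w5 (cF n + r) = blkF (uSeq 10 n) r := by
  have h : Nat.findGreatest (fun m => cF m ≤ cF n + r) (cF n + r) = n := by
    rw [Nat.findGreatest_eq_iff]
    refine ⟨(cF_strictMono.id_le n).trans (Nat.le_add_right _ _), fun _ => Nat.le_add_right _ _,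
      fun m hm _ hle => ?_⟩
    have := cF_strictMono.monotone (show n + 1 ≤ m by omega)
    simp only [cF] at this; omega
  unfold w5
  rw [h, Nat.add_sub_cancel_left]

lemma blkF_three (x r : ℕ) : blkF x r = 3 ↔ bN x r = 3 := Fin.ext_iff

theorem imgF : Img (3 : Fin 5) lenF blkF misF (uSeq 10) w5 cF where
  c0 := rfl
  succ _ := rfl
  val n r hr := by
    rcases Nat.eq_or_lt_of_le hr with rfl | h
    · have h1 := w5_val (n + 1) 0 (F_facts _ (u10_lt _)).1
      have h2 := (((F_facts _ (u10_lt (n + 1))).2.1 0 (by omega)).1).2 (Or.inl rfl)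
      have h3 := (((F_facts _ (u10_lt n)).2.1 _ le_rfl).1).2 (Or.inr rfl)
      rw [(blkF_three _ _).2 h2] at h1
      rw [(blkF_three _ _).2 h3]
      exact h1
    · exact w5_val n r h
  pos n := (F_facts _ (u10_lt n)).1
  mark n r hr := by rw [blkF_three]; exact ((F_facts _ (u10_lt n)).2.1 r hr).1
  pal n r hr := by rw [blkF_eq]; exact ((F_facts _ (u10_lt n)).2.1 r hr).2
  mis_ne n m h := by
    rw [Ne, blkF_eq]; exact ((F_facts _ (u10_lt n)).2.2 _ (u10_lt m) h).1
  mis_eq n m r h hr := by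
    rw [blkF_eq]; exact ((F_facts _ (u10_lt n)).2.2 _ (u10_lt m) h).2.1 r hr
  mis_le n m h := ((F_facts _ (u10_lt n)).2.2 _ (u10_lt m) h).2.2

lemma occB_iff {b : Fin 5} {x o m : ℕ} (h : Occ (blkF x) (blkF x) (fun z => z = b) o m o)
    (y k : ℕ) : occB x o m y k = true ↔ Occ (blkF x) (blkF y) (fun z => z = b) o m k := by
  obtain ⟨h1, h2, -⟩ := h
  simp only [occB, allLt_iff, beq_iff_eq, ← blkF_eq]
  constructor
  · intro H
    exact ⟨by simpa [h1] using H 0 (by omega), by rw [H m (by omega), h2],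
      fun r _ hr => H r (by omega)⟩
  · rintro ⟨o1, o2, o3⟩ t ht
    rcases Nat.eq_zero_or_pos t with rfl | h0
    · rw [add_zero, add_zero, o1, h1]
    · rcases Nat.eq_or_lt_of_le (Nat.le_of_lt_succ ht) with rfl | h3
      · rw [o2, h2]
      · exact o3 t h0 h3

lemma palB_of {b : Fin 5} {x o m : ℕ} (h : Occ (blkF x) (blkF x) (fun z => z = b) o m o)
    (hq : QSym (blkF x) o (o + m)) : palB x o m = true := by
  obtain ⟨h1, h2, -⟩ := h
  simp only [palB, allLt_iff, beq_iff_eq, ← blkF_eq]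
  intro t ht
  rcases Nat.eq_zero_or_pos t with rfl | h0
  · rw [add_zero, Nat.sub_zero, h1, h2]
  · rcases Nat.eq_or_lt_of_le (Nat.le_of_lt_succ ht) with rfl | h3
    · rw [Nat.add_sub_cancel, h1, h2]
    · exact hq _ _ (by omega) (by omega) (by omega)

theorem w5_rich : RichSeq w5 := by
  refine richSeq_of_conf w5 fun b m i j hc => imgF.conf_step _ ?_ ?_ hc
    fun S' m' i' j' hc' _ _ => conf_u 10 (by norm_num) S' m' i' j' hc'
  · rintro n o o' m hle ⟨h1, h2, h3, h4, h5⟩
    have h := chk1_true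
    simp only [chk1, allLt_iff, Bool.or_eq_true, Bool.not_eq_true', ← Bool.not_eq_true] at h
    obtain ⟨s, rfl⟩ : ∃ s, o' = o + 1 + s := ⟨o' - o - 1, by omega⟩
    rcases h _ (u10_lt n) o (by omega) m (by omega) with h6 | h6
    · exact absurd (palB_of h2 h3) h6
    · rcases h6 s (by omega) with (h7 | h7) | h7
      · exact absurd ((occB_iff h2 _ _).2 h4) h7
      · exact absurd (fun k hk ho => h5 (o + 1 + k) (by omega) (by omega)
          ((occB_iff h2 _ _).1 ho)) h7
      · simp only [palB, allLt_iff, beq_iff_eq, ← blkF_eq] at h7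
        intro x y hx hy hxy
        have := h7 (x - o) (by omega)
        rw [show x = o + (x - o) by omega, this]; congr 1; omega
  · intro n n' o o' m h1 h2 h3 h4 h5 h6 h7
    have h := chk2_true
    simp only [chk2, allLt_iff, Bool.or_eq_true, Bool.not_eq_true', ← Bool.not_eq_true,
      Bool.and_eq_true, beq_iff_eq, ← blkF_eq] at h
    rcases h _ (u10_lt n) o (by omega) m (by omega) with (h8 | h8) | h8
    · exact absurd (palB_of h3 h4) h8
    · exact absurd (fun k hk ho => h5 k hk ((occB_iff h3 _ _).1 ho)) h8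
    · rcases h8 _ (u10_lt n') o' (by omega) with (h9 | h9) | h9
      · exact absurd ((occB_iff h3 _ _).2 h6) h9
      · exact absurd (fun k hk ho => h7 k hk ((occB_iff h3 _ _).1 ho)) h9
      · exact h9

/-! ### The numerical inequalities -/

def e0F (x y : ℕ) : ℕ := misF x y - 1

lemma lvF (k x : ℕ) (hx : x < 10) : lv 10 lenF k x = (tab 10 lenF 1 k).1.getD x 0 :=
  (tab_eq (by norm_num) k).1 x hx

lemma pvF (k : ℕ) : pv 10 lenF 1 k = (tab 10 lenF 1 k).2 := (tab_eq (by norm_num) k).2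

lemma evF_low (k x y : ℕ) (hxy : x < y) (hy : y < 10) (hk : x + k ≤ 8) :
    ev 10 lenF e0F k x y = e0F (x + k) (min (y + k) 9) := by
  induction k generalizing x y with
  | zero => rw [show min (y + 0) 9 = y by omega]; rfl
  | succ k ih =>
    rw [ev_ne k x y (by unfold sg; omega), ih _ _ (by unfold sg; omega) (by unfold sg; omega)
      (by unfold sg; omega)]
    congr 1 <;> unfold sg <;> omega

lemma x_double (k s : ℕ) : 2 ^ s * lv 10 lenF k 9 ≤ lv 10 lenF (k + s) 9 := by
  induction s with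
  | zero => simp
  | succ s ih => rw [← add_assoc, lv_last (N := 10) _ 9 rfl, pow_succ]; nlinarith

lemma E_le (m : ℕ) : 511 * ev 10 lenF e0F m 0 9 ≤ lv 10 lenF m 9 := by
  induction m using Nat.strong_induction_on with
  | _ m ih =>
    by_cases h : m ≤ 8
    · rw [evF_low m 0 9 (by omega) (by omega) (by omega), lvF m 9 (by omega)]
      clear ih
      revert m
      decide +kernel
    · obtain ⟨m, rfl⟩ : ∃ m', m = m' + 8 + 1 := ⟨m - 9, by omega⟩
      rw [ev_far (N := 10) 8 0 9 m 9 rfl rfl (by omega) (by omega)]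
      have h1 := ih m (by omega)
      have h2 := x_double m 9
      change _ ≤ lv 10 lenF (m + 9) 9
      omega

lemma d_mono (m j : ℕ) : lv 10 lenF m 9 + pv 10 lenF 1 (m + j) ≤
    lv 10 lenF (m + j) 9 + pv 10 lenF 1 m := by
  induction j with
  | zero => simp
  | succ j ih =>
    rw [← add_assoc, lv_last (N := 10) _ 9 rfl]
    simp only [pv]; omega

lemma gA (m : ℕ) : 641 * (511 * pv 10 lenF 1 (m + 9) + 1024 * lv 10 lenF m 9) ≤
    38 * 511 * lv 10 lenF (m + 9) 9 := by
  have := pos_rec (fun m => 38 * 511 * (lv 10 lenF (m + 9) 9 : ℤ) -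
    641 * (511 * pv 10 lenF 1 (m + 9) + 1024 * lv 10 lenF m 9)) 9 0 (fun k => by
      have h1 := xv_rec (N := 10) (l0 := lenF) 9 rfl k
      have h2 := xv_rec (N := 10) (l0 := lenF) 9 rfl (k + 9)
      have h3 := pv_rec (N := 10) (l0 := lenF) (p0 := 1) 9 rfl (k + 9)
      simp only [add_assoc, Nat.reduceAdd] at h1 h2 h3 ⊢
      linarith) (by
      simp only [pvF, lvF _ 9 (by norm_num)]
      decide +kernel) (by
      simp only [pvF, lvF _ 9 (by norm_num)]
      decide +kernel) m (by omega)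
  omega

lemma gB (m : ℕ) : 641 * (511 * pv 10 lenF 1 (m + 9) + 1024 * lv 10 lenF m 9) ≤
    679 * 511 * lv 10 lenF (m + 9) 0 := by
  have := pos_rec (fun m => 679 * 511 * (pv 10 lenF 1 (m + 10) - pv 10 lenF 1 (m + 9) : ℤ) -
    641 * (511 * pv 10 lenF 1 (m + 9) + 1024 * lv 10 lenF m 9)) 9 0 (fun k => by
      have h1 := xv_rec (N := 10) (l0 := lenF) 9 rfl k
      have h2 := pv_rec (N := 10) (l0 := lenF) (p0 := 1) 9 rfl (k + 10)
      have h3 := pv_rec (N := 10) (l0 := lenF) (p0 := 1) 9 rfl (k + 9)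
      simp only [add_assoc, Nat.reduceAdd] at h1 h2 h3 ⊢
      linarith) (by
      simp only [pvF, lvF _ 9 (by norm_num)]
      decide +kernel) (by
      simp only [pvF, lvF _ 9 (by norm_num)]
      decide +kernel) m (by omega)
  have h : pv 10 lenF 1 (m + 10) = pv 10 lenF 1 (m + 9) + lv 10 lenF (m + 9) 0 := rfl
  omega

theorem goodF (k : ℕ) : Good 10 (lv 10 lenF k) (pv 10 lenF 1 k) (ev 10 lenF e0F k) := by
  have n1 := pv_le (N := 10) (l0 := lenF) (p0 := 1) (by decide) k
  have n2 := ev_le (N := 10) (l0 := lenF) (e0 := e0F) (by norm_num) (by decide) k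
  by_cases h : k ≤ 8
  · have e : ∀ j, j < 10 → 0 < j → ev 10 lenF e0F k 0 j = e0F (0 + k) (min (j + k) 9) :=
      fun j h1 h2 => evF_low k 0 j h2 h1 (by omega)
    refine ⟨n1, n2, fun j h1 h2 => ?_, fun j h1 h2 => ?_, ?_, ?_⟩
    · rw [e j h1 h2, pvF, lvF k j h1]
      clear n1 n2 e
      revert j k
      decide +kernel
    · rw [e j h1 (by omega), e 1 (by omega) (by omega), pvF, lvF k 0 (by omega)]
      clear n1 n2 e
      revert j k
      decide +kernel
    · rw [e 9 (by omega) (by omega), pvF, lvF k 0 (by omega)]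
      clear n1 n2 e
      revert k
      decide +kernel
    · rw [e 9 (by omega) (by omega), pvF, lvF k 9 (by omega)]
      clear n1 n2 e
      revert k
      decide +kernel
  · obtain ⟨m, rfl⟩ : ∃ m, k = m + 9 := ⟨k - 9, by omega⟩
    have e : ∀ j, j < 10 → 0 < j →
        ev 10 lenF e0F (m + 9) 0 j = lv 10 lenF m 9 + ev 10 lenF e0F m 0 9 :=
      fun j h1 h2 => ev_far 8 0 j m 9 rfl rfl h2 h1
    have a := gA m
    have b := gB m
    have c := E_le m
    refine ⟨n1, n2, fun j h1 h2 => ?_, fun j h1 h2 => ?_, ?_, ?_⟩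
    · have f1 := lv_far (N := 10) (l0 := lenF) (p0 := 1) 9 0 m 9 rfl rfl
      have f2 := lv_far (N := 10) (l0 := lenF) (p0 := 1) (9 - j) j (m + j) 9 rfl (by omega)
      have f3 := d_mono m j
      rw [show m + j + (9 - j) = m + 9 by omega] at f2
      rw [e j h1 h2]; omega
    · rw [e j h1 (by omega), e 1 (by omega) (by omega)]; omega
    · rw [e 9 (by omega) (by omega)]; omega
    · rw [e 9 (by omega) (by omega)]
      change _ ≤ 38 * lv 10 lenF (m + 9) 9
      omega

theorem w5_maxRun {i r n : ℕ} (hm : MaxRun w5 i r n) : 641 * n ≤ 679 * r := by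
  by_cases h : ∃ t, t < n ∧ w5 (i + t) = 3
  · obtain ⟨t, ht, h3⟩ := h
    obtain ⟨α, r', n', hm', -, e1, e2⟩ := imgF.descent (fun _ => 1) 0 (fun _ _ => 0) hm ht h3
    have l0 : lUp lenF blkF (fun _ => 1) = lenF := by
      funext x; simp [lUp, Wt_one]
    have e0 : eUp blkF misF (fun _ => 1) (fun _ _ => 0) = e0F := by
      funext x y; simp [eUp, Wt_one, e0F]
    rw [l0, e0] at e1
    rw [l0, Wt_one] at e2
    have := run_bound (N := 10) (by norm_num) goodF n' 0 α r' hm'
    simp only [lv, pv, ev] at this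
    rw [← e2, ← e1] at this
    simp only [Val, Wt_one] at this
    omega
  · push Not at h
    by_contra hc
    have hr := hm.1
    have hna : ∀ t, t < n + r → w5 (i + t) ≠ 3 := by
      intro t ht
      by_cases h1 : t < n
      · exact h t h1
      · rw [show i + t = i + r + (t - r) by omega, ← hm.2.1 _ (by omega)]
        exact h _ (by omega)
    obtain ⟨α, h1, h2⟩ := imgF.locate i
    have h3 : i ≠ cF α := by
      rintro rfl
      exact hna 0 (by omega) (imgF.cut α)
    have h4 : i + (n + r) ≤ cF (α + 1) := by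
      by_contra h5
      have := hna (cF (α + 1) - i) (by omega)
      rw [show i + (cF (α + 1) - i) = cF (α + 1) by omega] at this
      exact this (imgF.cut _)
    have s := imgF.succ α
    have k := chk3_true
    simp only [chk3, allLt_iff, Bool.or_eq_true, Bool.not_eq_true', ← Bool.not_eq_true,
      beq_iff_eq, ← blkF_eq, decide_eq_true_eq] at k
    obtain ⟨o, rfl⟩ : ∃ o, i = cF α + (o + 1) := ⟨i - cF α - 1, by omega⟩
    obtain ⟨r, rfl⟩ : ∃ r', r = r' + 1 := ⟨r - 1, by omega⟩
    rcases k _ (u10_lt α) o (by omega) r (by omega) with k1 | k1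
    · omega
    · refine k1 fun t ht => ?_
      rw [← imgF.val α _ (by omega), ← imgF.val α _ (by omega), ← add_assoc, hm.2.1 t (by omega)]
      congr 1; omega

theorem w5_run {j r m : ℕ} (hr : 0 < r) (h : ∀ t, t < m → w5 (j + t) = w5 (j + r + t)) :
    641 * m ≤ 679 * r := by
  obtain ⟨i, n, h1, h2, hm⟩ := exists_maxRun w5 hr h (by
    by_contra hc
    push Not at hc
    obtain ⟨γ, r', h1, -, h3⟩ := imgF.evPer hr hc
    obtain ⟨t, ht⟩ := aper_u 10 (by norm_num) r' h1 γ
    exact ht (h3 t))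
  have := w5_maxRun hm
  omega

end Pool.Agent.Lib.MP_9d05bc_co
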